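import Pool.Agent.PB.S8.MeasL
import Pool.Agent.PB.P.Expl

/-!
# PB S8-FinEn (0.6 h, uses MeasL (measurable_local), P/Mix, P/Loc, P/Expl): 8.4 finite energy (field `finEn` of Out8)

K finite, y ∉ K, p = p_c < 1, 0 < p_c. Let X = {lattice edges touching K} (finite set E_K of edges), Z = {all of them closed},
P(Z) = (1-p)^{|E_K|} > 0 (Pr_labels_gt), depends on the labels inl e, e ∈ E_K. A = {(Cl (rem O) y).Finite ∧ Ev (rem O)}, rem = (ofSet K).rem:
measurable (measurable_local for the Prop-valued/indicator function: F O := (Cl O y).Finite ∧ Ev O) and depends only on labels of edges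
outside E_K (rem_ofSet, dep_rem_ofSet). {(Cl O y).Finite ∧ Ev (rem O)} ⊆ A (Cl (rem O) y ⊆ Cl O y). P(A) P(Z) = P(A ∩ Z), and on Z
rem O = O, so A ∩ Z ⊆ {(Cl O y).Finite ∧ Ev O}. C = 1/P(Z).
-/

set_option autoImplicit false
open MeasureTheory Filter Topology
open scoped ENNReal BigOperators

namespace Pool.Agent.PB.S8

open Pool.Agent.PB

variable {d : ℕ}

private lemma finEn_touch_finite (K : Finset (V d)) :
    {e : Sym2 (V d) | e ∈ (lat d).edgeSet ∧ e ∈ touch (K : Set (V d))}.Finite := by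
  have h1 : (⋃ a ∈ (K : Set (V d)), (fun b : V d => s(a, b)) '' (bx 1 a)).Finite :=
    K.finite_toSet.biUnion fun a _ => (bx_finite 1 a).image _
  refine h1.subset ?_
  have hb : ∀ a b : V d, (lat d).Adj a b → b ∈ bx 1 a := by
    intro a b hab i
    have h2 : l1 (b - a) = 1 := hab
    have h3 : |(b - a) i| ≤ l1 (b - a) := by
      unfold l1
      exact Finset.single_le_sum (f := fun i => |(b - a) i|) (fun j _ => abs_nonneg _)
        (Finset.mem_univ i)
    rw [h2] at h3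
    simpa using h3
  rintro e ⟨he, ht⟩
  induction e using Sym2.ind with
  | _ a b =>
    rw [SimpleGraph.mem_edgeSet] at he
    rcases mem_touch_iff.1 ht with h | h
    · simp only [Set.mem_iUnion]
      exact ⟨a, h, b, hb a b he, rfl⟩
    · simp only [Set.mem_iUnion]
      exact ⟨b, h, a, hb b a he.symm, Sym2.eq_swap⟩

theorem finEn (hC : Crit d) (K : Finset (V d)) (y : V d) (hy : y ∉ K) : ∃ C : ℝ, 0 < C ∧
    ∀ Ev : Set (Sym2 (V d)) → Prop,
      (∀ O O' : Set (Sym2 (V d)), (Cl O y).Finite →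
        (∀ e ∈ touch (Cl O y), (e ∈ O ↔ e ∈ O')) → (Ev O ↔ Ev O')) →
      Pr d {ω : Om d | (Cl (Oc ω) y).Finite ∧ Ev ((Del.ofSet (K : Set (V d))).rem (Oc ω))} ≤
        ENNReal.ofReal C * Pr d {ω : Om d | (Cl (Oc ω) y).Finite ∧ Ev (Oc ω)} := by
  classical
  set F : Finset (Ix d) := (finEn_touch_finite K).toFinset.image Sum.inl with hF
  set Z : Set (Om d) := {ω | ∀ i ∈ F, pc d < ((ω i : unitInterval) : ℝ)} with hZdef
  have hmemF : ∀ e : Sym2 (V d), e ∈ (lat d).edgeSet → e ∈ touch (K : Set (V d)) →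
      (Sum.inl e : Ix d) ∈ F := by
    intro e he ht
    rw [hF, Finset.mem_image]
    exact ⟨e, (finEn_touch_finite K).mem_toFinset.2 ⟨he, ht⟩, rfl⟩
  have hFt : ∀ i ∈ F, i ∈ tI (K : Set (V d)) := by
    intro i hi
    rw [hF, Finset.mem_image] at hi
    obtain ⟨e, he, rfl⟩ := hi
    exact inl_mem_tI.2 ((finEn_touch_finite K).mem_toFinset.1 he).2
  have hZm : MeasurableSet Z := by
    rw [hZdef, Set.ofPred_forall]
    refine MeasurableSet.iInter fun i => ?_
    rw [Set.ofPred_forall]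
    exact MeasurableSet.iInter fun _ => measurableSet_lt (by fun_prop) (by fun_prop)
  have hZdep : DependsOn (fun ω : Om d => ω ∈ Z) (tI (K : Set (V d))) := by
    intro ω ω' h
    simp only [eq_iff_iff, hZdef, Set.mem_ofPred_eq]
    constructor
    · intro h1 i hi
      rw [← h i (hFt i hi)]
      exact h1 i hi
    · intro h1 i hi
      rw [h i (hFt i hi)]
      exact h1 i hi
  have hPZ : Pr d Z = (1 - ENNReal.ofReal (min (pc d) 1)) ^ F.card := Pr_labels_gt F (pc d)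
  have hPZ0 : Pr d Z ≠ 0 := by
    rw [hPZ]
    refine pow_ne_zero _ ?_
    rw [Ne, tsub_eq_zero_iff_le, not_le]
    rw [← ENNReal.ofReal_one]
    refine (ENNReal.ofReal_lt_ofReal_iff one_pos).2 ?_
    exact min_lt_of_left_lt hC.pc_lt
  have hPZt : Pr d Z ≠ ⊤ := measure_ne_top _ _
  have hi0 : (Pr d Z)⁻¹ ≠ 0 := ENNReal.inv_ne_zero.2 hPZt
  have hit : (Pr d Z)⁻¹ ≠ ⊤ := ENNReal.inv_ne_top.2 hPZ0
  refine ⟨((Pr d Z)⁻¹).toReal, ENNReal.toReal_pos hi0 hit, fun Ev hEv => ?_⟩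
  rw [ENNReal.ofReal_toReal hit]
  set A : Set (Om d) := {ω : Om d | (Cl ((Del.ofSet (K : Set (V d))).rem (Oc ω)) y).Finite ∧
    Ev ((Del.ofSet (K : Set (V d))).rem (Oc ω))} with hAdef
  have hAm : MeasurableSet A := by
    rw [hAdef, measurableSet_setOfPred]
    refine measurable_local (F := fun O => (Cl O y).Finite ∧ Ev O) y ?_ ?_ (pc d)
      (Del.ofSet (K : Set (V d)))
    · intro O O' hfin hag
      have h1 : Cl O' y = Cl O y := Cl_local hag
      have h2 := hEv O O' hfin hag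
      simp only [h1, h2]
    · intro O O' h1 h2
      simp only [h1, h2, false_and]
  have hAdep : DependsOn (fun ω : Om d => ω ∈ A) (tI (K : Set (V d)))ᶜ :=
    dep_rem_ofSet (pc d) 0 0 (K : Set (V d)) (fun O _ _ => (Cl O y).Finite ∧ Ev O)
  have hprod : Pr d (Z ∩ A) = Pr d Z * Pr d A := expl hZm hAm hZdep hAdep
  have hsub1 : {ω : Om d | (Cl (Oc ω) y).Finite ∧ Ev ((Del.ofSet (K : Set (V d))).rem (Oc ω))} ⊆ A := by
    rintro ω ⟨h1, h2⟩
    refine ⟨h1.subset ?_, h2⟩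
    intro x hx
    exact Rch.mono (fun e he => he.1) hx
  have hsub2 : Z ∩ A ⊆ {ω : Om d | (Cl (Oc ω) y).Finite ∧ Ev (Oc ω)} := by
    rintro ω ⟨hz, ha⟩
    have hrem : (Del.ofSet (K : Set (V d))).rem (Oc ω) = Oc ω := by
      rw [rem_ofSet]
      refine sdiff_eq_left.2 ?_
      rw [Set.disjoint_left]
      intro e he ht
      have h3 : e ∈ (lat d).edgeSet ∧ ((ω (Sum.inl e) : unitInterval) : ℝ) ≤ pc d := he
      have h4 := hz _ (hmemF e h3.1 ht)
      exact absurd h3.2 (not_le.2 h4)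
    have h5 : (Cl ((Del.ofSet (K : Set (V d))).rem (Oc ω)) y).Finite ∧
      Ev ((Del.ofSet (K : Set (V d))).rem (Oc ω)) := ha
    rw [hrem] at h5
    exact h5
  calc Pr d {ω : Om d | (Cl (Oc ω) y).Finite ∧ Ev ((Del.ofSet (K : Set (V d))).rem (Oc ω))}
      ≤ Pr d A := measure_mono hsub1
    _ = (Pr d Z)⁻¹ * Pr d (Z ∩ A) := by
        rw [hprod, ← mul_assoc, ENNReal.inv_mul_cancel hPZ0 hPZt, one_mul]
    _ ≤ (Pr d Z)⁻¹ * Pr d {ω : Om d | (Cl (Oc ω) y).Finite ∧ Ev (Oc ω)} :=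
        mul_le_mul_right (measure_mono hsub2) _

end Pool.Agent.PB.S8
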