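import Pool.Agent.PB.S8.MeasL
import Pool.Agent.PB.P.Expl

/-!
# PB S8-NB (0.6 h, uses MeasL, P/Expl (Mg_eq), Crit, Out5): elementary bounds at p_c with s → 0

h5 : Out5 d (theta(p_c) = 0, c sqrt h <= M(h) <= C sqrt h for 0 < h <= 1). N = Nc (Oc ω) 0.
* `EW_W1`: E(1 - e^{-sN}) = Mr d (pc d) s (P/Expl.Mg_eq: Mg = ∫ (1 - ex s (Cl)); the cluster is a.s. finite).
* `min_bd`: E min(1, sN) <= 2 C sqrt s: min(1,x) <= 2 (1 - e^{-x}) for x >= 0 (x <= 1: 1 - e^{-x} >= x - x^2/2 >= x/2; x >= 1: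
  1 - e^{-1} >= 1/2).
* `small_bd`: E[sN ; sN <= a] <= 2 C sqrt a sqrt s for 0 < s <= a <= 1?? (s <= a, a > 0): sN 1{sN <= a} <= a min(1, (s/a) N), and min_bd
  at s/a <= 1: a * 2 C sqrt(s/a) = 2 C sqrt a sqrt s.
* `large_bd`: P(sN >= b') <= 2 C sqrt(s/b') for s <= b': 1{sN >= b'} <= min(1,(s/b')N), min_bd at s/b' <= 1.
Everything bounded measurable, so integrable (probability measure).
-/

set_option autoImplicit false
open MeasureTheory Filter Topology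
open scoped ENNReal BigOperators

namespace Pool.Agent.PB.S8

open Pool.Agent.PB

variable {d : ℕ}

private lemma nb_meas (s : ℝ) :
    Measurable (fun ω : Om d => s * (Nc (Oc ω) (0 : V d) : ℝ)) :=
  (measurable_Nc (d := d) 0).const_mul s

private lemma nb_int_of_bdd {f : Om d → ℝ} (hf : Measurable f) {c : ℝ} (hb : ∀ ω, |f ω| ≤ c) :
    Integrable f (Pr d) :=
  Integrable.of_bound hf.aestronglyMeasurable c (Eventually.of_forall fun ω => by
    rw [Real.norm_eq_abs]; exact hb ω)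

private lemma nb_min_nonneg {s : ℝ} (hs : 0 ≤ s) (n : ℕ) : 0 ≤ min 1 (s * (n : ℝ)) :=
  le_min zero_le_one (mul_nonneg hs (Nat.cast_nonneg n))

private lemma nb_int_min {s : ℝ} (hs : 0 ≤ s) :
    Integrable (fun ω : Om d => min 1 (s * (Nc (Oc ω) (0 : V d) : ℝ))) (Pr d) := by
  refine nb_int_of_bdd (c := 1) (measurable_const.min (nb_meas s)) fun ω => ?_
  rw [abs_of_nonneg (nb_min_nonneg hs _)]
  exact min_le_left _ _

private lemma nb_exp_le_one {s : ℝ} (hs : 0 ≤ s) (n : ℕ) : Real.exp (-(s * (n : ℝ))) ≤ 1 := by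
  rw [Real.exp_le_one_iff]
  have : 0 ≤ s * (n : ℝ) := mul_nonneg hs (Nat.cast_nonneg n)
  linarith

private lemma nb_int_exp {s : ℝ} (hs : 0 ≤ s) :
    Integrable (fun ω : Om d => 1 - Real.exp (-(s * (Nc (Oc ω) (0 : V d) : ℝ)))) (Pr d) := by
  refine nb_int_of_bdd (c := 1) (measurable_const.sub (nb_meas s).neg.exp) fun ω => ?_
  have h1 := nb_exp_le_one hs (Nc (Oc ω) (0 : V d))
  have h2 := Real.exp_pos (-(s * (Nc (Oc ω) (0 : V d) : ℝ)))
  rw [abs_of_nonneg (by linarith)]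
  linarith

private lemma nb_min_le {x : ℝ} (hx : 0 ≤ x) : min 1 x ≤ 2 * (1 - Real.exp (-x)) := by
  have h0 : 0 < Real.exp (-x) := Real.exp_pos _
  have h1 := Real.add_one_le_exp x
  have h2 : Real.exp x * Real.exp (-x) = 1 := by rw [← Real.exp_add]; simp
  -- (1 + x) e^{-x} ≤ 1
  have h3 : (1 + x) * Real.exp (-x) ≤ 1 := by nlinarith
  rcases le_total x 1 with h | h
  · rw [min_eq_right h]
    -- x ≤ 2 (1 - e^{-x}) since e^{-x} ≤ 1/(1+x) ≤ 1 - x/2
    by_contra hcon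
    push Not at hcon
    have h4 : 1 - x / 2 < Real.exp (-x) := by linarith
    have h5 : (1 + x) * (1 - x / 2) < (1 + x) * Real.exp (-x) :=
      mul_lt_mul_of_pos_left h4 (by linarith)
    nlinarith
  · rw [min_eq_left h]
    have : 2 * Real.exp (-x) ≤ (1 + x) * Real.exp (-x) :=
      mul_le_mul_of_nonneg_right (by linarith) h0.le
    linarith

theorem EW_W1 (h5 : Out5 d) {s : ℝ} (hs : 0 < s) :
    EW W1 s (D0 : Del (V d)) 0 = Mr d (pc d) s := by
  unfold EW Mr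
  simp only [WA_D0, W1]
  rw [Mg_eq (pc d) hs, integral_eq_lintegral_of_nonneg_ae]
  · congr 1
    have h0 : ∀ᵐ ω ∂(Pr d), (Cl (opn (pc d) ω) (0 : V d)).Finite := by
      have h1 := h5.theta_pc
      unfold theta at h1
      rw [ae_iff]
      exact h1
    refine lintegral_congr_ae ?_
    filter_upwards [h0] with ω hω
    rw [ex_fin s hω, ENNReal.ofReal_sub _ (Real.exp_pos _).le, ENNReal.ofReal_one]
    rfl
  · refine Eventually.of_forall fun ω => ?_
    have h1 := nb_exp_le_one hs.le (Nc (Oc ω) (0 : V d))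
    simp only [Pi.zero_apply]
    linarith
  · exact (nb_int_exp hs.le).aestronglyMeasurable

theorem Mr_low (h5 : Out5 d) : ∃ c : ℝ, 0 < c ∧ ∀ s : ℝ, 0 < s → s ≤ 1 →
    c * Real.sqrt s ≤ Mr d (pc d) s := by
  obtain ⟨C, hC, hb⟩ := h5.bounds
  have hC0 : 0 < C := by linarith
  refine ⟨1 / C, by positivity, fun s hs hs1 => ?_⟩
  obtain ⟨-, h2, h3⟩ := hb s hs hs1
  rw [div_mul_eq_mul_div, one_mul, div_le_iff₀ hC0]
  calc Real.sqrt s ≤ C * (s * Mp d (pc d) s) := h2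
    _ ≤ C * Mr d (pc d) s := mul_le_mul_of_nonneg_left h3 hC0.le
    _ = Mr d (pc d) s * C := mul_comm _ _

theorem min_bd (h5 : Out5 d) : ∃ C : ℝ, 1 ≤ C ∧ ∀ s : ℝ, 0 < s → s ≤ 1 →
    ∫ ω : Om d, min 1 (s * (Nc (Oc ω) (0 : V d) : ℝ)) ∂(Pr d) ≤ C * Real.sqrt s := by
  obtain ⟨C, hC, hb⟩ := h5.bounds
  refine ⟨2 * C, by linarith, fun s hs hs1 => ?_⟩
  have h1 := EW_W1 h5 hs
  unfold EW at h1
  simp only [WA_D0, W1] at h1
  calc ∫ ω : Om d, min 1 (s * (Nc (Oc ω) (0 : V d) : ℝ)) ∂(Pr d)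
      ≤ ∫ ω : Om d, 2 * (1 - Real.exp (-(s * (Nc (Oc ω) (0 : V d) : ℝ)))) ∂(Pr d) :=
        integral_mono (nb_int_min hs.le) ((nb_int_exp hs.le).const_mul 2) fun ω =>
          nb_min_le (mul_nonneg hs.le (Nat.cast_nonneg _))
    _ = 2 * Mr d (pc d) s := by rw [integral_const_mul, h1]
    _ ≤ 2 * (C * Real.sqrt s) := mul_le_mul_of_nonneg_left (hb s hs hs1).1 (by norm_num)
    _ = 2 * C * Real.sqrt s := by ring

theorem small_bd (h5 : Out5 d) : ∃ C : ℝ, 1 ≤ C ∧ ∀ s a : ℝ, 0 < s → s ≤ a →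
    ∫ ω : Om d, (if s * (Nc (Oc ω) (0 : V d) : ℝ) ≤ a then s * (Nc (Oc ω) (0 : V d) : ℝ) else 0)
      ∂(Pr d) ≤ C * Real.sqrt a * Real.sqrt s := by
  obtain ⟨C, hC, hb⟩ := min_bd h5
  refine ⟨C, hC, fun s a hs hsa => ?_⟩
  have ha : 0 < a := hs.trans_le hsa
  have hq0 : 0 < s / a := by positivity
  have hq1 : s / a ≤ 1 := (div_le_one ha).2 hsa
  have hpt : ∀ n : ℕ, (if s * (n : ℝ) ≤ a then s * (n : ℝ) else 0) ≤ a * min 1 (s / a * n) := by
    intro n
    have hn : (0 : ℝ) ≤ n := Nat.cast_nonneg n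
    rw [mul_min_of_nonneg _ _ ha.le]
    have e1 : a * (s / a * (n : ℝ)) = s * n := by field_simp
    rw [e1]
    split_ifs with h
    · exact le_min (by linarith) le_rfl
    · exact le_min (by linarith) (by positivity)
  have hpt0 : ∀ n : ℕ, 0 ≤ (if s * (n : ℝ) ≤ a then s * (n : ℝ) else 0) := by
    intro n
    split_ifs
    · positivity
    · exact le_rfl
  have hint : Integrable (fun ω : Om d => (if s * (Nc (Oc ω) (0 : V d) : ℝ) ≤ a then
      s * (Nc (Oc ω) (0 : V d) : ℝ) else 0)) (Pr d) := by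
    refine nb_int_of_bdd (c := a)
      (Measurable.ite (measurableSet_le (nb_meas s) measurable_const) (nb_meas s)
        measurable_const) fun ω => ?_
    rw [abs_of_nonneg (hpt0 _)]
    split_ifs with h
    · exact h
    · exact ha.le
  calc ∫ ω : Om d, (if s * (Nc (Oc ω) (0 : V d) : ℝ) ≤ a then
        s * (Nc (Oc ω) (0 : V d) : ℝ) else 0) ∂(Pr d)
      ≤ ∫ ω : Om d, a * min 1 (s / a * (Nc (Oc ω) (0 : V d) : ℝ)) ∂(Pr d) :=
        integral_mono hint ((nb_int_min hq0.le).const_mul a) fun ω => hpt _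
    _ = a * ∫ ω : Om d, min 1 (s / a * (Nc (Oc ω) (0 : V d) : ℝ)) ∂(Pr d) :=
        integral_const_mul _ _
    _ ≤ a * (C * Real.sqrt (s / a)) := mul_le_mul_of_nonneg_left (hb _ hq0 hq1) ha.le
    _ = C * Real.sqrt a * Real.sqrt s := by
        rw [Real.sqrt_div hs.le]
        have h1 : Real.sqrt a * Real.sqrt a = a := Real.mul_self_sqrt ha.le
        have h2 : 0 < Real.sqrt a := Real.sqrt_pos.2 ha
        field_simp
        nlinarith

theorem large_bd (h5 : Out5 d) : ∃ C : ℝ, 1 ≤ C ∧ ∀ s b' : ℝ, 0 < s → s ≤ b' →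
    (Pr d {ω : Om d | b' ≤ s * (Nc (Oc ω) (0 : V d) : ℝ)}).toReal ≤ C * Real.sqrt (s / b') := by
  obtain ⟨C, hC, hb⟩ := min_bd h5
  refine ⟨C, hC, fun s b' hs hsb => ?_⟩
  have hb0 : 0 < b' := hs.trans_le hsb
  have hq0 : 0 < s / b' := by positivity
  have hq1 : s / b' ≤ 1 := (div_le_one hb0).2 hsb
  have hms : MeasurableSet {ω : Om d | b' ≤ s * (Nc (Oc ω) (0 : V d) : ℝ)} :=
    measurableSet_le measurable_const (nb_meas s)
  have h1 : (Pr d {ω : Om d | b' ≤ s * (Nc (Oc ω) (0 : V d) : ℝ)}).toReal =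
      ∫ ω : Om d, Set.indicator {ω : Om d | b' ≤ s * (Nc (Oc ω) (0 : V d) : ℝ)} 1 ω ∂(Pr d) := by
    rw [integral_indicator_one hms]
    rfl
  rw [h1]
  refine le_trans (integral_mono ?_ (nb_int_min hq0.le) ?_) (hb _ hq0 hq1)
  · exact (integrable_const (1 : ℝ)).indicator hms
  · intro ω
    by_cases hω : ω ∈ {ω : Om d | b' ≤ s * (Nc (Oc ω) (0 : V d) : ℝ)}
    · rw [Set.indicator_of_mem hω]
      have h2 : b' ≤ s * (Nc (Oc ω) (0 : V d) : ℝ) := hω
      refine le_min le_rfl ?_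
      show (1 : ℝ) ≤ _
      rw [div_mul_eq_mul_div, le_div_iff₀ hb0, one_mul]
      exact h2
    · rw [Set.indicator_of_notMem hω]
      exact nb_min_nonneg hq0.le _

end Pool.Agent.PB.S8
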