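import Pool.Agent.PB.S8.ReInt
import Pool.Agent.PB.S8.NB
import Pool.Agent.PB.P.NL

/-!
# PB S8-Pairs (0.8 h, uses ReInt (reroot_lint) or P/Reroot (mass_transport), NB, P/NL (nonlocal_sum, cluster_sum, mul_ex_le)): 8.3 (fields `nonloc`,
`pairs` of Out8)

N = Nc, S = the double sum. On the event N >= a/s > 0 (so the cluster is finite), ofReal (η N) < S and e^{-sN} >= e^{-b'}:
Pr(event) <= (e^{b'}/(η a)) ∫⁻ s e^{-sN} S   (Markov; all ENNReal: on the event 1 <= S/(ηN) <= (s/(η a)) S).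
S = Σ_{x∈C(0)} F(x) with F O x = Σ_z 1{z ∈ Cl O x, z ∉ Lb R O x} t(z - x) (resp. without the second condition; Cl O x = Cl O 0 for
x ∈ C(0)); mass transport (re-rooting) of s e^{-sN} F: ∫⁻ s e^{-sN} S = ∫⁻ s N e^{-sN} F(Oc,0) <= ∫⁻ (1 - ex s (Cl (Oc ω) 0)) * Σ_{z ∈ C(0) \ Lb R 0} t(z)
(`mul_ex_le`) <= TRP (pc d) R t * Mg (pc d) s (`nonlocal_sum` with A = Del.ofSet ∅ (rem O = O, ClA = Cl), y = 0; `TR_eq`),
Mg (pc d) s <= ofReal (C sqrt s) (Out5.bounds, Mr = toReal Mg). For `pairs` use `cluster_sum`.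
-/

set_option autoImplicit false
open MeasureTheory Filter Topology
open scoped ENNReal BigOperators

namespace Pool.Agent.PB.S8

open Pool.Agent.PB

variable {d : ℕ}

private lemma pr_ex_shE (s : ℝ) (O : Set (Sym2 (V d))) (x z : V d) :
    ex s (Cl (shE z O) (x + z)) = ex s (Cl O x) := by
  have h1 : Cl (shE z O) (x + z) = (fun y => y + z) '' Cl O x := Cl_shE z O x
  have hinj : Function.Injective (fun y : V d => y + z) := add_left_injective z
  by_cases h : (Cl O x).Finite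
  · have h2 : (Cl (shE z O) (x + z)).Finite := by rw [h1]; exact h.image _
    rw [ex_fin s h, ex_fin s h2, h1, Set.ncard_image_of_injective _ hinj]
  · have h2 : (Cl (shE z O) (x + z)).Infinite := by
      rw [h1]
      exact Set.Infinite.image hinj.injOn h
    rw [ex_inf s h, ex_inf s h2]

private lemma pr_ClA_D0 (O : Set (Sym2 (V d))) (y : V d) : ClA (D0 : Del (V d)) O y = Cl O y := by
  ext x
  show (y ∉ (D0 : Del (V d)).S ∧ Rch ((D0 : Del (V d)).rem O) y x) ↔ Rch O y x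
  rw [rem_D0]
  constructor
  · exact fun h => h.2
  · exact fun h => ⟨fun h2 => h2, h⟩

/-- the common argument: Markov, re-rooting, `s N e^{-sN} ≤ 1 - e^{-sN}` and `M(s) ≤ C √s` -/
private lemma pr_core (h5 : Out5 d) (a b' : ℝ) (ha : 0 < a) :
    ∃ C : ℝ, 0 < C ∧ ∀ (F : Set (Sym2 (V d)) → V d → ℝ≥0∞) (T : ℝ≥0∞) (S : Om d → ℝ≥0∞)
      (η s : ℝ), (∀ O x z, F (shE z O) (x + z) = F O x) →
      (∀ x, Measurable (fun ω : Om d => F (Oc ω) x)) → 0 < η → 0 < s → s ≤ 1 →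
      ∫⁻ ω : Om d, (1 - ex s (Cl (Oc ω) (0 : V d))) * F (Oc ω) 0 ∂(Pr d) ≤ T * Mg d (pc d) s →
      (∀ ω : Om d, (Cl (Oc ω) (0 : V d)).Finite →
        S ω = sumCl (Oc ω) (0 : V d) (fun x => F (Oc ω) x)) →
      Pr d {ω : Om d | a ≤ s * (Nc (Oc ω) (0 : V d) : ℝ) ∧ s * (Nc (Oc ω) (0 : V d) : ℝ) ≤ b' ∧
        ENNReal.ofReal (η * (Nc (Oc ω) (0 : V d) : ℝ)) < S ω} ≤
      ENNReal.ofReal (C / η * Real.sqrt s) * T := by
  obtain ⟨C, hC, hb⟩ := h5.bounds
  have hC0 : 0 < C := by linarith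
  refine ⟨C * Real.exp b' / a, by positivity, ?_⟩
  intro F T S η s hcov hm hη hs hs1 hbd hS
  -- the weighted functional
  set G : Set (Sym2 (V d)) → V d → ℝ≥0∞ := fun O x => ex s (Cl O x) * F O x with hG
  have hGcov : ∀ O x z, G (shE z O) (x + z) = G O x := by
    intro O x z
    simp only [hG, hcov, pr_ex_shE]
  have hGm : ∀ x, Measurable (fun ω : Om d => G (Oc ω) x) := fun x =>
    (measurable_ex ((opn_MES (pc d)).cl x)).mul (hm x)
  have hr := reroot_lint G hGcov hGm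
  set f : Om d → ℝ≥0∞ := fun ω => ENNReal.ofReal s * sumCl (Oc ω) (0 : V d) (fun x => G (Oc ω) x)
    with hf
  have hfm : Measurable f := (measurable_sumCl G hGm).const_mul _
  have hint : ∫⁻ ω : Om d, f ω ∂(Pr d) ≤ T * Mg d (pc d) s := by
    have h1 : ∫⁻ ω : Om d, f ω ∂(Pr d) =
        ENNReal.ofReal s * ∫⁻ ω : Om d, (Nc (Oc ω) (0 : V d) : ℝ≥0∞) * G (Oc ω) 0 ∂(Pr d) := by
      rw [← hr, ← lintegral_const_mul _ (measurable_sumCl G hGm)]
    rw [h1, ← lintegral_const_mul' _ _ ENNReal.ofReal_ne_top]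
    refine le_trans (lintegral_mono fun ω => ?_) hbd
    show ENNReal.ofReal s * ((Nc (Oc ω) (0 : V d) : ℝ≥0∞) * (ex s (Cl (Oc ω) 0) * F (Oc ω) 0)) ≤
      (1 - ex s (Cl (Oc ω) (0 : V d))) * F (Oc ω) 0
    have h2 : (Nc (Oc ω) (0 : V d) : ℝ≥0∞) ≤ ((Cl (Oc ω) (0 : V d)).encard : ℝ≥0∞) := by
      by_cases hfin : (Cl (Oc ω) (0 : V d)).Finite
      · rw [← hfin.cast_ncard_eq]
        exact le_of_eq rfl
      · have : Nc (Oc ω) (0 : V d) = 0 := Nc_of_infinite hfin
        rw [this]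
        simp
    calc ENNReal.ofReal s * ((Nc (Oc ω) (0 : V d) : ℝ≥0∞) * (ex s (Cl (Oc ω) 0) * F (Oc ω) 0))
        = (ENNReal.ofReal s * (Nc (Oc ω) (0 : V d) : ℝ≥0∞) * ex s (Cl (Oc ω) 0)) *
            F (Oc ω) 0 := by ring
      _ ≤ (ENNReal.ofReal s * ((Cl (Oc ω) (0 : V d)).encard : ℝ≥0∞) * ex s (Cl (Oc ω) 0)) *
            F (Oc ω) 0 := by gcongr
      _ ≤ (1 - ex s (Cl (Oc ω) (0 : V d))) * F (Oc ω) 0 :=
          mul_le_mul' (mul_ex_le hs.le _) le_rfl
  -- the event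
  set κ : ℝ := η * a * Real.exp (-b') with hκ
  have hκ0 : 0 < κ := by positivity
  have hsub : {ω : Om d | a ≤ s * (Nc (Oc ω) (0 : V d) : ℝ) ∧
      s * (Nc (Oc ω) (0 : V d) : ℝ) ≤ b' ∧
      ENNReal.ofReal (η * (Nc (Oc ω) (0 : V d) : ℝ)) < S ω} ⊆
      {ω | ENNReal.ofReal κ ≤ f ω} := by
    rintro ω ⟨h1, h2, h3⟩
    have hfin : (Cl (Oc ω) (0 : V d)).Finite := by
      by_contra hcon
      have : Nc (Oc ω) (0 : V d) = 0 := Nc_of_infinite hcon
      rw [this] at h1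
      simp at h1
      linarith
    have h4 : sumCl (Oc ω) (0 : V d) (fun x => G (Oc ω) x) =
        ex s (Cl (Oc ω) (0 : V d)) * S ω := by
      rw [hS ω hfin, sumCl_eq_indicator _ _ _ hfin, sumCl_eq_indicator _ _ _ hfin,
        ← ENNReal.tsum_mul_left]
      refine tsum_congr fun x => ?_
      by_cases hx : x ∈ Cl (Oc ω) (0 : V d)
      · rw [Set.indicator_of_mem hx, Set.indicator_of_mem hx]
        show ex s (Cl (Oc ω) x) * F (Oc ω) x = _
        rw [Cl_eq_of_mem hx]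
      · rw [Set.indicator_of_notMem hx, Set.indicator_of_notMem hx, mul_zero]
    show ENNReal.ofReal κ ≤ ENNReal.ofReal s * sumCl (Oc ω) (0 : V d) (fun x => G (Oc ω) x)
    rw [h4, ex_fin s hfin]
    have h5 : ENNReal.ofReal (Real.exp (-b')) ≤
        ENNReal.ofReal (Real.exp (-(s * ((Cl (Oc ω) (0 : V d)).ncard : ℝ)))) := by
      refine ENNReal.ofReal_le_ofReal (Real.exp_le_exp.2 ?_)
      exact neg_le_neg h2
    calc ENNReal.ofReal κ
        ≤ ENNReal.ofReal (s * (Real.exp (-b') * (η * (Nc (Oc ω) (0 : V d) : ℝ)))) := by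
          refine ENNReal.ofReal_le_ofReal ?_
          have h6 : κ = (η * Real.exp (-b')) * a := by rw [hκ]; ring
          have h7 : s * (Real.exp (-b') * (η * (Nc (Oc ω) (0 : V d) : ℝ))) =
              (η * Real.exp (-b')) * (s * (Nc (Oc ω) (0 : V d) : ℝ)) := by ring
          rw [h6, h7]
          exact mul_le_mul_of_nonneg_left h1 (by positivity)
      _ = ENNReal.ofReal s * (ENNReal.ofReal (Real.exp (-b')) *
            ENNReal.ofReal (η * (Nc (Oc ω) (0 : V d) : ℝ))) := by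
          rw [ENNReal.ofReal_mul hs.le, ENNReal.ofReal_mul (Real.exp_pos _).le]
      _ ≤ _ := by gcongr
  have hM : Mg d (pc d) s ≤ ENNReal.ofReal (C * Real.sqrt s) := by
    have h1 := (hb s hs hs1).1
    unfold Mr at h1
    have h2 : Mg d (pc d) s ≠ ⊤ := by
      unfold Mg
      exact measure_ne_top _ _
    rw [← ENNReal.ofReal_toReal h2]
    exact ENNReal.ofReal_le_ofReal h1
  have hmk := meas_ge_le_lintegral_div (μ := Pr d) hfm.aemeasurable
    (ε := ENNReal.ofReal κ) (by simpa using hκ0) ENNReal.ofReal_ne_top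
  refine (measure_mono hsub).trans (hmk.trans ?_)
  have hmul : T * Mg d (pc d) s ≤ T * ENNReal.ofReal (C * Real.sqrt s) := by gcongr
  refine (ENNReal.div_le_div_right (hint.trans hmul) _).trans (le_of_eq ?_)
  rw [mul_comm T, ENNReal.mul_div_right_comm, ← ENNReal.ofReal_div_of_pos hκ0]
  congr 2
  rw [hκ, Real.exp_neg]
  field_simp

theorem nonloc (hC : Crit d) (h5 : Out5 d) (a b' : ℝ) (ha : 0 < a) (hab : a < b') :
    ∃ C : ℝ, 0 < C ∧ ∀ (R : ℕ) (t : V d → ℝ≥0∞) (η s : ℝ),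
    0 < η → 0 < s → s ≤ 1 →
      Pr d {ω : Om d | a ≤ s * (Nc (Oc ω) (0 : V d) : ℝ) ∧ s * (Nc (Oc ω) (0 : V d) : ℝ) ≤ b' ∧
        ENNReal.ofReal (η * (Nc (Oc ω) (0 : V d) : ℝ)) <
          ∑' x : V d, ∑' z : V d, Set.indicator {q : V d × V d | q.1 ∈ Cl (Oc ω) (0 : V d) ∧
            q.2 ∈ Cl (Oc ω) (0 : V d) ∧ q.2 ∉ Lb R (Oc ω) q.1} (fun q => t (q.2 - q.1)) (x, z)} ≤
      ENNReal.ofReal (C / η * Real.sqrt s) * TR R t := by
  obtain ⟨C, hC0, hcore⟩ := pr_core h5 a b' ha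
  refine ⟨C, hC0, fun R t η s hη hs hs1 => ?_⟩
  refine hcore (fun O x => ∑' z, (Cl O x \ Lb R O x).indicator (fun z => t (z - x)) z) (TR R t)
    _ η s ?_ ?_ hη hs hs1 ?_ ?_
  · intro O x z
    rw [← (Equiv.addRight z).tsum_eq]
    refine tsum_congr fun w => ?_
    have hinj : Function.Injective (fun y : V d => y + z) := add_left_injective z
    have h1 : w + z ∈ Cl (shE z O) (x + z) ↔ w ∈ Cl O x := by
      rw [Cl_shE]
      exact hinj.mem_set_image
    have h2 : w + z ∈ Lb R (shE z O) (x + z) ↔ w ∈ Lb R O x := by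
      rw [Lb_shift]
      exact hinj.mem_set_image
    have h3 : w + z - (x + z) = w - x := by abel
    show (Cl (shE z O) (x + z) \ Lb R (shE z O) (x + z)).indicator
      (fun y => t (y - (x + z))) (w + z) = _
    by_cases hw : w ∈ Cl O x \ Lb R O x
    · have hw' : w + z ∈ Cl (shE z O) (x + z) \ Lb R (shE z O) (x + z) :=
        ⟨h1.2 hw.1, fun h => hw.2 (h2.1 h)⟩
      rw [Set.indicator_of_mem hw, Set.indicator_of_mem hw', h3]
    · have hw' : w + z ∉ Cl (shE z O) (x + z) \ Lb R (shE z O) (x + z) :=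
        fun h => hw ⟨h1.1 h.1, fun h4 => h.2 (h2.2 h4)⟩
      rw [Set.indicator_of_notMem hw, Set.indicator_of_notMem hw']
  · intro x
    refine Measurable.tsum fun z => ?_
    have hS : MeasurableSet {ω : Om d | z ∈ Cl (Oc ω) x \ Lb R (Oc ω) x} := by
      refine ((opn_MES (pc d)).cl x z).inter ?_
      have := meas_Lb (pc d) (D0 : Del (V d)) R x z
      simp only [rem_D0] at this
      exact this.compl
    have h2 : (fun ω : Om d => (Cl (Oc ω) x \ Lb R (Oc ω) x).indicator (fun z => t (z - x)) z) =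
        {ω : Om d | z ∈ Cl (Oc ω) x \ Lb R (Oc ω) x}.indicator (fun _ => t (z - x)) := by
      funext ω
      by_cases h : z ∈ Cl (Oc ω) x \ Lb R (Oc ω) x
      · rw [Set.indicator_of_mem h, Set.indicator_of_mem (by exact h)]
      · rw [Set.indicator_of_notMem h, Set.indicator_of_notMem (by exact h)]
    rw [h2]
    exact measurable_const.indicator hS
  · have h := nonlocal_sum (pc d) hs (D0 : Del (V d)) R 0 t
    simp only [pr_ClA_D0, rem_D0] at h
    rw [← TR_eq]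
    exact h
  · intro ω hfin
    rw [sumCl_eq_indicator _ _ _ hfin]
    refine tsum_congr fun x => ?_
    by_cases hx : x ∈ Cl (Oc ω) (0 : V d)
    · rw [Set.indicator_of_mem hx]
      refine tsum_congr fun z => ?_
      rw [Cl_eq_of_mem hx]
      by_cases hz : z ∈ Cl (Oc ω) (0 : V d) \ Lb R (Oc ω) x
      · rw [Set.indicator_of_mem hz, Set.indicator_of_mem (by exact ⟨hx, hz.1, hz.2⟩)]
      · rw [Set.indicator_of_notMem hz, Set.indicator_of_notMem (by
          rintro ⟨-, h2, h3⟩; exact hz ⟨h2, h3⟩)]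
    · rw [Set.indicator_of_notMem hx, ENNReal.tsum_eq_zero]
      intro z
      rw [Set.indicator_of_notMem (by rintro ⟨h2, -⟩; exact hx h2)]

theorem pairs (hC : Crit d) (h5 : Out5 d) (a b' : ℝ) (ha : 0 < a) (hab : a < b') :
    ∃ C : ℝ, 0 < C ∧ ∀ (t : V d → ℝ≥0∞) (Λ s : ℝ),
    0 < Λ → 0 < s → s ≤ 1 →
      Pr d {ω : Om d | a ≤ s * (Nc (Oc ω) (0 : V d) : ℝ) ∧ s * (Nc (Oc ω) (0 : V d) : ℝ) ≤ b' ∧
        ENNReal.ofReal (Λ * (Nc (Oc ω) (0 : V d) : ℝ)) <
          ∑' x : V d, ∑' z : V d, Set.indicator {q : V d × V d | q.1 ∈ Cl (Oc ω) (0 : V d) ∧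
            q.2 ∈ Cl (Oc ω) (0 : V d)} (fun q => t (q.2 - q.1)) (x, z)} ≤
      ENNReal.ofReal (C / Λ * Real.sqrt s) *
        ∑' z : V d, t z * conv (tau (pc d)) (tau (pc d)) z := by
  obtain ⟨C, hC0, hcore⟩ := pr_core h5 a b' ha
  refine ⟨C, hC0, fun t Λ s hΛ hs hs1 => ?_⟩
  refine hcore (fun O x => ∑' z, (Cl O x).indicator (fun z => t (z - x)) z) _
    _ Λ s ?_ ?_ hΛ hs hs1 ?_ ?_
  · intro O x z
    rw [← (Equiv.addRight z).tsum_eq]
    refine tsum_congr fun w => ?_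
    have hinj : Function.Injective (fun y : V d => y + z) := add_left_injective z
    have h1 : w + z ∈ Cl (shE z O) (x + z) ↔ w ∈ Cl O x := by
      rw [Cl_shE]
      exact hinj.mem_set_image
    have h3 : w + z - (x + z) = w - x := by abel
    show (Cl (shE z O) (x + z)).indicator (fun y => t (y - (x + z))) (w + z) = _
    by_cases hw : w ∈ Cl O x
    · rw [Set.indicator_of_mem hw, Set.indicator_of_mem (h1.2 hw), h3]
    · rw [Set.indicator_of_notMem hw, Set.indicator_of_notMem (fun h => hw (h1.1 h))]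
  · intro x
    refine Measurable.tsum fun z => ?_
    have hS : MeasurableSet {ω : Om d | z ∈ Cl (Oc ω) x} := (opn_MES (pc d)).cl x z
    have h2 : (fun ω : Om d => (Cl (Oc ω) x).indicator (fun z => t (z - x)) z) =
        {ω : Om d | z ∈ Cl (Oc ω) x}.indicator (fun _ => t (z - x)) := by
      funext ω
      by_cases h : z ∈ Cl (Oc ω) x
      · rw [Set.indicator_of_mem h, Set.indicator_of_mem (by exact h)]
      · rw [Set.indicator_of_notMem h, Set.indicator_of_notMem (by exact h)]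
    rw [h2]
    exact measurable_const.indicator hS
  · have h := cluster_sum (pc d) hs (D0 : Del (V d)) 0 t
    simp only [pr_ClA_D0] at h
    exact h
  · intro ω hfin
    rw [sumCl_eq_indicator _ _ _ hfin]
    refine tsum_congr fun x => ?_
    by_cases hx : x ∈ Cl (Oc ω) (0 : V d)
    · rw [Set.indicator_of_mem hx]
      refine tsum_congr fun z => ?_
      rw [Cl_eq_of_mem hx]
      by_cases hz : z ∈ Cl (Oc ω) (0 : V d)
      · rw [Set.indicator_of_mem hz, Set.indicator_of_mem (by exact ⟨hx, hz⟩)]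
      · rw [Set.indicator_of_notMem hz, Set.indicator_of_notMem (by
          rintro ⟨-, h2⟩; exact hz h2)]
    · rw [Set.indicator_of_notMem hx, ENNReal.tsum_eq_zero]
      intro z
      rw [Set.indicator_of_notMem (by rintro ⟨h2, -⟩; exact hx h2)]

end Pool.Agent.PB.S8
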