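import Pool.Agent.PB.S8.ExpLim
import Pool.Agent.PB.S8.Pairs
import Pool.Agent.PB.S8.FinEn

/-!
# PB S8-Final: Out8
-/

set_option autoImplicit false
open MeasureTheory Filter Topology
open scoped ENNReal BigOperators

namespace Pool.Agent.PB.S8

open Pool.Agent.PB

variable {d : ℕ}

theorem out8 (hC : Crit d) (h5 : Out5 d) (h6 : Out6 d) {b : ℝ} (h7 : Out7 d b) : Out8 d b where
  lln R g c hg a b' η ha hab hη := lln h5 h6 R g c hg a b' η ha hab hη
  nonloc a b' ha hab := nonloc hC h5 a b' ha hab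
  pairs a b' ha hab := pairs hC h5 a b' ha hab
  finEn K y hy := finEn hC K y hy
  gbar_nonneg R := gbar_nonneg h5 h6 R
  gbar_anti := gbar_anti h5 h6
  gbar_lim := gbar_lim h5 h6
  explim R a t η as ha ht has h0 := explim h5 h6 h7 R a t η as ha ht has h0
  expW a t η c0 as ha ht hc0 h0 h1 := isW_exp a t η c0 as ha ht hc0 h0 h1
  gL_bd L hL _ := gL_bd h6 L hL

end Pool.Agent.PB.S8
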