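import Pool.Agent.PB.Outs
import Pool.Agent.PB.Link

/-!
# PB S8-Base (0.8 h, deterministic; uses Basic, Link, Mix/Defs): `Lb`, `Lb0`, `Yf`, `Nc`

* `bx R x` is finite, contains x; `Lb R O x = Cl (O ∩ ins (bx R x)) x ⊆ bx R x` (closed under the steps), so finite.
* `Lb R O x ⊆ Cl O x`, monotone in R (bx R x ⊆ bx R' x) and in O.
* `Lb0_local`: O ↦ g (Lb0 R O 0) depends only on the edges in B = ins (bx R 0) (finite: Sym2 of a finite set).
* `Yf_bound`: triangle inequality; `Yf_congr`, `Nc_congr`: Cl O x = Cl O y for x ∈ Cl O y (Cl_eq_of_mem).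
* `Yf_sub_const`: Yf of g - γ is Yf g - γ Nc (Set.ncard_eq_toFinset_card).
* `Lb0_shift`, `Nc_shift`, `Yf_shift`: translation covariance (shE z O = image of O under + z; Rch_equiv).
-/

set_option autoImplicit false
open MeasureTheory Filter Topology
open scoped ENNReal BigOperators

namespace Pool.Agent.PB.S8

open Pool.Agent.PB

variable {d : ℕ}

theorem bx_finite (R : ℕ) (x : V d) : (bx R x).Finite := by
  have h : bx R x ⊆ Set.pi Set.univ (fun i : Fin d => Set.Icc (x i - R) (x i + R)) := by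
    intro y hy i _
    have h1 := abs_le.1 (hy i)
    exact ⟨by linarith [h1.1], by linarith [h1.2]⟩
  exact (Set.Finite.pi fun i => Set.finite_Icc _ _).subset h

theorem self_mem_bx (R : ℕ) (x : V d) : x ∈ bx R x := by
  intro i
  simp

/-- inside a vertex set: everything reached from inside stays inside -/
theorem Rch_ins_mem {W : Type*} {O : Set (Sym2 W)} {S : Set W} {x y : W} (hx : x ∈ S)
    (h : Rch (O ∩ ins S) x y) : y ∈ S := by
  refine Rch.mem_of_closed S hx ?_ h
  intro a _ b hab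
  exact hab.2 b (Sym2.mem_mk_right a b)

theorem Lb_subset_bx (R : ℕ) (O : Set (Sym2 (V d))) (x : V d) : Lb R O x ⊆ bx R x :=
  fun _ hy => Rch_ins_mem (self_mem_bx R x) hy

theorem Lb_finite (R : ℕ) (O : Set (Sym2 (V d))) (x : V d) : (Lb R O x).Finite :=
  (bx_finite R x).subset (Lb_subset_bx R O x)

theorem Lb_subset_Cl (R : ℕ) (O : Set (Sym2 (V d))) (x : V d) : Lb R O x ⊆ Cl O x :=
  Cl_mono Set.inter_subset_left x

theorem self_mem_Lb (R : ℕ) (O : Set (Sym2 (V d))) (x : V d) : x ∈ Lb R O x :=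
  self_mem_Cl _ _

theorem Lb_mono {R R' : ℕ} (h : R ≤ R') (O : Set (Sym2 (V d))) (x : V d) :
    Lb R O x ⊆ Lb R' O x := by
  refine Cl_mono (Set.inter_subset_inter_right O ?_) x
  intro e he y hy i
  exact (he y hy i).trans (by exact_mod_cast h)

theorem Lb0_finite (R : ℕ) (O : Set (Sym2 (V d))) (x : V d) : (Lb0 R O x).Finite :=
  (Lb_finite R O x).image _

theorem zero_mem_Lb0 (R : ℕ) (O : Set (Sym2 (V d))) (x : V d) : (0 : V d) ∈ Lb0 R O x :=
  ⟨x, self_mem_Lb R O x, sub_self x⟩

theorem Lb0_mono {R R' : ℕ} (h : R ≤ R') (O : Set (Sym2 (V d))) (x : V d) :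
    Lb0 R O x ⊆ Lb0 R' O x := Set.image_mono (Lb_mono h O x)

/-- finitely many edges inside a finite vertex set -/
theorem ins_finite {W : Type*} {S : Set W} (h : S.Finite) : (ins S).Finite := by
  classical
  have h1 : ((h.toFinset ×ˢ h.toFinset).image (fun q : W × W => s(q.1, q.2)) :
    Set (Sym2 W)).Finite := Finset.finite_toSet _
  refine h1.subset ?_
  intro e he
  induction e using Sym2.ind with
  | _ a b =>
    rw [Finset.mem_coe, Finset.mem_image]
    exact ⟨(a, b), Finset.mem_product.2 ⟨h.mem_toFinset.2 (he a (Sym2.mem_mk_left a b)),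
      h.mem_toFinset.2 (he b (Sym2.mem_mk_right a b))⟩, rfl⟩

theorem Lb0_local (R : ℕ) (g : Set (V d) → ℝ) :
    LocalF (ins (bx R (0 : V d))) (fun O => g (Lb0 R O (0 : V d))) := by
  refine ⟨ins_finite (bx_finite R 0), ?_⟩
  intro O O' h
  simp only [Lb0, Lb, h]

theorem Yf_of_finite (R : ℕ) (g : Set (V d) → ℝ) {O : Set (Sym2 (V d))} {y : V d}
    (h : (Cl O y).Finite) : Yf R g O y = ∑ x ∈ h.toFinset, g (Lb0 R O x) := by
  unfold Yf
  rw [dif_pos h]

theorem Yf_of_infinite (R : ℕ) (g : Set (V d) → ℝ) {O : Set (Sym2 (V d))} {y : V d}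
    (h : ¬ (Cl O y).Finite) : Yf R g O y = 0 := by
  unfold Yf
  rw [dif_neg h]

theorem Nc_of_finite {W : Type*} {O : Set (Sym2 W)} {y : W} (h : (Cl O y).Finite) :
    Nc O y = h.toFinset.card := Set.ncard_eq_toFinset_card _ h

theorem Nc_of_infinite {W : Type*} {O : Set (Sym2 W)} {y : W} (h : ¬ (Cl O y).Finite) :
    Nc O y = 0 := Set.Infinite.ncard h

theorem Yf_bound {R : ℕ} {g : Set (V d) → ℝ} {c : ℝ}
    (hg : ∀ L : Set (V d), L.Finite → (0 : V d) ∈ L → |g L| ≤ c) (O : Set (Sym2 (V d))) (y : V d) :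
    |Yf R g O y| ≤ c * (Nc O y : ℝ) := by
  by_cases h : (Cl O y).Finite
  · rw [Yf_of_finite R g h, Nc_of_finite h]
    refine (Finset.abs_sum_le_sum_abs _ _).trans ?_
    refine (Finset.sum_le_sum fun x _ => hg _ (Lb0_finite R O x) (zero_mem_Lb0 R O x)).trans ?_
    rw [Finset.sum_const, nsmul_eq_mul, mul_comm]
  · rw [Yf_of_infinite R g h, Nc_of_infinite h]
    simp

theorem Nc_congr {O : Set (Sym2 (V d))} {x y : V d} (h : x ∈ Cl O y) : Nc O x = Nc O y := by
  unfold Nc
  rw [Cl_eq_of_mem h]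

theorem Yf_congr (R : ℕ) (g : Set (V d) → ℝ) {O : Set (Sym2 (V d))} {x y : V d}
    (h : x ∈ Cl O y) : Yf R g O x = Yf R g O y := by
  have h1 := Cl_eq_of_mem h
  by_cases h2 : (Cl O y).Finite
  · have h3 : (Cl O x).Finite := by rw [h1]; exact h2
    rw [Yf_of_finite R g h2, Yf_of_finite R g h3]
    refine Finset.sum_congr ?_ fun _ _ => rfl
    ext w
    rw [Set.Finite.mem_toFinset, Set.Finite.mem_toFinset, h1]
  · have h3 : ¬ (Cl O x).Finite := by rw [h1]; exact h2
    rw [Yf_of_infinite R g h2, Yf_of_infinite R g h3]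

theorem Yf_sub_const (R : ℕ) (g : Set (V d) → ℝ) (γ : ℝ) (O : Set (Sym2 (V d))) (y : V d) :
    Yf R (fun L => g L - γ) O y = Yf R g O y - γ * (Nc O y : ℝ) := by
  by_cases h : (Cl O y).Finite
  · rw [Yf_of_finite R _ h, Yf_of_finite R g h, Nc_of_finite h, Finset.sum_sub_distrib,
      Finset.sum_const, nsmul_eq_mul, mul_comm γ]
  · rw [Yf_of_infinite R _ h, Yf_of_infinite R g h, Nc_of_infinite h]
    simp

theorem mem_shE {z : V d} {O : Set (Sym2 (V d))} {a b : V d} :
    s(a + z, b + z) ∈ shE z O ↔ s(a, b) ∈ O := by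
  have h1 : s(a + z, b + z) = Sym2.map (fun x => x + z) s(a, b) := rfl
  rw [h1, shE]
  exact (Sym2.map.injective (add_left_injective z)).mem_set_image

theorem Rch_shE {z : V d} {O : Set (Sym2 (V d))} {x y : V d} :
    Rch (shE z O) (x + z) (y + z) ↔ Rch O x y := by
  constructor
  · intro h
    have key : ∀ a b : V d, s(a, b) ∈ shE z O → s(a - z, b - z) ∈ O := by
      intro a b hab
      rw [← mem_shE (z := z)]
      simpa using hab
    have h2 : Rch O (x + z - z) (y + z - z) := by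
      refine Rch.induct (P := fun w => Rch O (x + z - z) (w - z)) (Rch.refl _ _) ?_ h
      intro a b _ hab ha
      exact ha.tail (key a b hab)
    simpa using h2
  · intro h
    refine Rch.induct (P := fun w => Rch (shE z O) (x + z) (w + z)) (Rch.refl _ _) ?_ h
    intro a b _ hab ha
    exact ha.tail (mem_shE.2 hab)

theorem Cl_shE (z : V d) (O : Set (Sym2 (V d))) (x : V d) :
    Cl (shE z O) (x + z) = (fun w => w + z) '' Cl O x := by
  ext w
  constructor
  · intro h
    refine ⟨w - z, ?_, by simp⟩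
    have h2 : Rch (shE z O) (x + z) (w - z + z) := by
      rw [sub_add_cancel]; exact h
    exact Rch_shE.1 h2
  · rintro ⟨v, hv, rfl⟩
    exact Rch_shE.2 hv

theorem shE_ins (z : V d) (O : Set (Sym2 (V d))) (R : ℕ) (x : V d) :
    shE z O ∩ ins (bx R (x + z)) = shE z (O ∩ ins (bx R x)) := by
  ext e
  induction e using Sym2.ind with
  | _ a b =>
    have h1 : s(a, b) = s(a - z + z, b - z + z) := by simp
    have h2 : ∀ c : V d, c ∈ bx R (x + z) ↔ c - z ∈ bx R x := by
      intro c
      simp only [bx, Set.mem_ofPred_eq, Pi.add_apply, Pi.sub_apply]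
      refine forall_congr' fun i => ?_
      have : c i - (x i + z i) = c i - z i - x i := by ring
      rw [this]
    rw [h1, mem_shE, Set.mem_inter_iff, mem_shE, ← h1, Set.mem_inter_iff]
    refine and_congr_right fun _ => ?_
    simp only [ins, Set.mem_ofPred_eq, Sym2.mem_iff, forall_eq_or_imp, forall_eq, h2]

theorem Lb_shift (R : ℕ) (O : Set (Sym2 (V d))) (x z : V d) :
    Lb R (shE z O) (x + z) = (fun w => w + z) '' Lb R O x := by
  unfold Lb
  rw [shE_ins, Cl_shE]

theorem Lb0_shift (R : ℕ) (O : Set (Sym2 (V d))) (x z : V d) :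
    Lb0 R (shE z O) (x + z) = Lb0 R O x := by
  unfold Lb0
  rw [Lb_shift, Set.image_image]
  refine Set.image_congr fun w _ => ?_
  exact add_sub_add_right_eq_sub w x z

theorem Nc_shift (O : Set (Sym2 (V d))) (x z : V d) : Nc (shE z O) (x + z) = Nc O x := by
  unfold Nc
  rw [Cl_shE]
  exact Set.ncard_image_of_injective _ (add_left_injective z)

theorem Yf_shift (R : ℕ) (g : Set (V d) → ℝ) (O : Set (Sym2 (V d))) (x z : V d) :
    Yf R g (shE z O) (x + z) = Yf R g O x := by
  have hc := Cl_shE z O x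
  by_cases h : (Cl O x).Finite
  · have h' : (Cl (shE z O) (x + z)).Finite := by rw [hc]; exact h.image _
    rw [Yf_of_finite R g h, Yf_of_finite R g h']
    refine (Finset.sum_nbij' (fun w => w + z) (fun w => w - z) ?_ ?_ ?_ ?_ ?_).symm
    · intro a ha
      rw [Set.Finite.mem_toFinset] at ha ⊢
      rw [hc]
      exact ⟨a, ha, rfl⟩
    · intro a ha
      rw [Set.Finite.mem_toFinset] at ha ⊢
      rw [hc] at ha
      obtain ⟨v, hv, rfl⟩ := ha
      simpa using hv
    · intro a _
      simp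
    · intro a _
      simp
    · intro a _
      rw [Lb0_shift]
  · have h' : ¬ (Cl (shE z O) (x + z)).Finite := by
      rw [hc]
      intro h2
      exact h (Set.Finite.of_finite_image h2 (add_left_injective z).injOn)
    rw [Yf_of_infinite R g h, Yf_of_infinite R g h']

theorem rem_D0 (O : Set (Sym2 (V d))) : (D0 : Del (V d)).rem O = O := by
  ext e
  simp [D0, Del.rem, Del.ofSet]

theorem WA_D0 (W : ℝ → Set (Sym2 (V d)) → V d → ℝ) (s : ℝ) (O : Set (Sym2 (V d))) (y : V d) :
    WA W s D0 O y = W s O y := by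
  unfold WA
  rw [rem_D0, if_neg]
  simp [D0, Del.ofSet]

end Pool.Agent.PB.S8
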