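import Pool.Agent.PB.Mix.Defs

/-!
# PB S8-WSq (0.6 h, real inequalities only): two families satisfy (W)

(1) w_s(N,Y) = s^2 N (Y - γ N) e^{-sN}. With x = sN, y = s(Y - γN), |y| <= c1 x, c1 = c0 + |γ|: w = x y e^{-x}.
  bound: |w| <= c1 x^2 e^{-x} <= c1 min(1,x)  (x e^{-x} <= 1/e <= 1, x^2 e^{-x} <= 1).
  Lipschitz: wlog x <= x': x y e^{-x} - x' y' e^{-x'} = y (x e^{-x} - x' e^{-x'}) + x' e^{-x'} (y - y'),
  |x e^{-x} - x' e^{-x'}| <= (1+x) e^{-x} |x' - x| (mean value theorem: |1-u| e^{-u} <= (1+u) e^{-u} <= (1+x) e^{-x} for u >= x),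
  x (1+x) e^{-x} <= 2. |y - y'| <= s |Y - Y'| + |γ| s |N - N'|.
(2) w_s(N,Y) = 1 - exp(-(as s) max(0, tY + ηN)): bound 1 - e^{-z} <= min(1,z), z = as s * max(0, tY+ηN) <= a s (t c0 + |η|) N;
  Lipschitz: z ↦ e^{-z} is 1-Lipschitz on [0,∞), max(0,.) is 1-Lipschitz.
-/

set_option autoImplicit false
open MeasureTheory Filter Topology
open scoped ENNReal BigOperators

namespace Pool.Agent.PB.S8

open Pool.Agent.PB

/-- `e^{-z}` is 1-Lipschitz on `[0, ∞)`. -/
private lemma wsq_exp_lip {z z' : ℝ} (hz : 0 ≤ z) (hz' : 0 ≤ z') :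
    |Real.exp (-z) - Real.exp (-z')| ≤ |z - z'| := by
  have key : ∀ a b : ℝ, 0 ≤ a → a ≤ b → |Real.exp (-a) - Real.exp (-b)| ≤ |a - b| := by
    intro a b ha hab
    have h1 : Real.exp (-b) ≤ Real.exp (-a) := Real.exp_le_exp.2 (by linarith)
    have h2 : Real.exp (-a) ≤ 1 := by
      rw [Real.exp_le_one_iff]; linarith
    have h3 : Real.exp (-b) = Real.exp (-a) * Real.exp (-(b - a)) := by
      rw [← Real.exp_add]; congr 1; ring
    have h4 : 1 - (b - a) ≤ Real.exp (-(b - a)) := by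
      have := Real.add_one_le_exp (-(b - a)); linarith
    have h5 : 0 ≤ Real.exp (-a) := (Real.exp_pos _).le
    rw [abs_of_nonneg (by linarith), abs_of_nonpos (by linarith)]
    rw [h3]
    nlinarith
  rcases le_total z z' with h | h
  · exact key z z' hz h
  · rw [abs_sub_comm, abs_sub_comm z z']; exact key z' z hz' h

private lemma wsq_one_sub_le {z : ℝ} : 1 - Real.exp (-z) ≤ z := by
  have := Real.add_one_le_exp (-z); linarith

private lemma wsq_x_exp {x : ℝ} : x * Real.exp (-x) ≤ 1 := by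
  have h1 := Real.add_one_le_exp x
  have h2 : Real.exp x * Real.exp (-x) = 1 := by rw [← Real.exp_add]; simp
  have h3 : 0 < Real.exp (-x) := Real.exp_pos _
  nlinarith

private lemma wsq_x2_exp {x : ℝ} (hx : 0 ≤ x) : x ^ 2 * Real.exp (-x) ≤ 4 := by
  have h1 := Real.add_one_le_exp (x / 2)
  have h2 : Real.exp x = Real.exp (x / 2) ^ 2 := by
    rw [← Real.exp_nat_mul]; congr 1; push_cast; ring
  have h3 : x ^ 2 / 4 ≤ Real.exp x := by
    rw [h2]; nlinarith
  have h4 : Real.exp x * Real.exp (-x) = 1 := by rw [← Real.exp_add]; simp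
  have h5 : 0 < Real.exp (-x) := Real.exp_pos _
  nlinarith

private lemma wsq_diff {x x' : ℝ} (hx : 0 ≤ x) (h : x ≤ x') :
    |x * Real.exp (-x) - x' * Real.exp (-x')| ≤ (1 + x) * Real.exp (-x) * (x' - x) := by
  obtain ⟨d, rfl⟩ : ∃ d, x' = x + d := ⟨x' - x, by ring⟩
  have hd : 0 ≤ d := by linarith
  have h1 : Real.exp (-(x + d)) = Real.exp (-x) * Real.exp (-d) := by
    rw [← Real.exp_add]; congr 1; ring
  have h2 : x * Real.exp (-x) - (x + d) * Real.exp (-(x + d)) =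
      Real.exp (-x) * (x * (1 - Real.exp (-d)) - d * Real.exp (-d)) := by
    rw [h1]; ring
  have e0 : 0 < Real.exp (-x) := Real.exp_pos _
  have e1 : 0 < Real.exp (-d) := Real.exp_pos _
  have e2 : Real.exp (-d) ≤ 1 := by rw [Real.exp_le_one_iff]; linarith
  have e3 : 1 - Real.exp (-d) ≤ d := wsq_one_sub_le
  rw [h2, abs_mul, abs_of_pos e0]
  have h3 : |x * (1 - Real.exp (-d)) - d * Real.exp (-d)| ≤ (1 + x) * d := by
    rw [abs_le]; constructor
    · have : d * Real.exp (-d) ≤ d := by nlinarith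
      have : 0 ≤ x * (1 - Real.exp (-d)) := mul_nonneg hx (by linarith)
      nlinarith
    · have : 0 ≤ d * Real.exp (-d) := by positivity
      have : x * (1 - Real.exp (-d)) ≤ x * d := mul_le_mul_of_nonneg_left e3 hx
      nlinarith
  calc Real.exp (-x) * |x * (1 - Real.exp (-d)) - d * Real.exp (-d)|
      ≤ Real.exp (-x) * ((1 + x) * d) := mul_le_mul_of_nonneg_left h3 e0.le
    _ = (1 + x) * Real.exp (-x) * (x + d - x) := by ring

/-- the Lipschitz estimate of `x y e^{-x}` in the ordered case -/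
private lemma wsq_main {c1 x x' y y' : ℝ} (hc1 : 0 ≤ c1) (hx : 0 ≤ x) (h : x ≤ x')
    (hy : |y| ≤ c1 * x) :
    |x * y * Real.exp (-x) - x' * y' * Real.exp (-x')| ≤ 5 * c1 * (x' - x) + |y - y'| := by
  have h1 : x * y * Real.exp (-x) - x' * y' * Real.exp (-x') =
      y * (x * Real.exp (-x) - x' * Real.exp (-x')) + x' * Real.exp (-x') * (y - y') := by ring
  rw [h1]
  refine (abs_add_le _ _).trans ?_
  rw [abs_mul, abs_mul]
  have hx' : 0 ≤ x' := hx.trans h
  have e0 : 0 < Real.exp (-x) := Real.exp_pos _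
  have e1 : 0 ≤ x' * Real.exp (-x') := by positivity
  rw [abs_of_nonneg e1]
  have e2 : x' * Real.exp (-x') ≤ 1 := wsq_x_exp
  have a1 : |y| * |x * Real.exp (-x) - x' * Real.exp (-x')| ≤
      (c1 * x) * ((1 + x) * Real.exp (-x) * (x' - x)) :=
    mul_le_mul hy (wsq_diff hx h) (abs_nonneg _) (by positivity)
  have a2 : (c1 * x) * ((1 + x) * Real.exp (-x) * (x' - x)) =
      c1 * (x' - x) * (x * Real.exp (-x) + x ^ 2 * Real.exp (-x)) := by ring
  have a3 : x * Real.exp (-x) + x ^ 2 * Real.exp (-x) ≤ 5 := by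
    have := wsq_x_exp (x := x)
    have := wsq_x2_exp hx
    linarith
  have a4 : c1 * (x' - x) * (x * Real.exp (-x) + x ^ 2 * Real.exp (-x)) ≤ c1 * (x' - x) * 5 :=
    mul_le_mul_of_nonneg_left a3 (mul_nonneg hc1 (by linarith))
  have a5 : x' * Real.exp (-x') * |y - y'| ≤ 1 * |y - y'| :=
    mul_le_mul_of_nonneg_right e2 (abs_nonneg _)
  linarith

theorem isW_sq (γ c0 : ℝ) (hc0 : 0 ≤ c0) : ∃ c, IsW (fun s N Y =>
    s ^ 2 * N * (Y - γ * N) * Real.exp (-(s * N))) c0 c := by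
  have hγ : 0 ≤ |γ| := abs_nonneg γ
  set c1 : ℝ := c0 + |γ| with hc1def
  have hc1 : 0 ≤ c1 := by positivity
  have hyb : ∀ s : ℝ, 0 < s → ∀ (N : ℕ) (Y : ℝ), |Y| ≤ c0 * N →
      |s * (Y - γ * N)| ≤ c1 * (s * N) := by
    intro s hs N Y hY
    rw [abs_mul, abs_of_pos hs]
    have hN : (0 : ℝ) ≤ N := Nat.cast_nonneg N
    have h1 : |Y - γ * N| ≤ |Y| + |γ * N| := abs_sub _ _
    have h2 : |γ * (N : ℝ)| = |γ| * N := by rw [abs_mul, abs_of_nonneg hN]
    have h3 : |Y - γ * N| ≤ c1 * N := by rw [hc1def]; linarith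
    calc s * |Y - γ * N| ≤ s * (c1 * N) := mul_le_mul_of_nonneg_left h3 hs.le
      _ = c1 * (s * N) := by ring
  have key : ∀ s : ℝ, 0 < s → ∀ (N N' : ℕ) (Y Y' : ℝ), |Y| ≤ c0 * N → N ≤ N' →
      |s ^ 2 * N * (Y - γ * N) * Real.exp (-(s * N)) -
        s ^ 2 * N' * (Y' - γ * N') * Real.exp (-(s * N'))| ≤
      (1 + 5 * c1 + |γ|) * s * (|(N : ℝ) - N'| + |Y - Y'|) := by
    intro s hs N N' Y Y' hY hNN
    have hN : (0 : ℝ) ≤ N := Nat.cast_nonneg N
    have hNN' : (N : ℝ) ≤ N' := Nat.cast_le.2 hNN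
    have h0 : (0 : ℝ) ≤ s * N := by positivity
    have h1 : s * (N : ℝ) ≤ s * N' := mul_le_mul_of_nonneg_left hNN' hs.le
    have h2 := wsq_main (y' := s * (Y' - γ * N')) hc1 h0 h1 (hyb s hs N Y hY)
    have e1 : s ^ 2 * N * (Y - γ * N) * Real.exp (-(s * N)) -
        s ^ 2 * N' * (Y' - γ * N') * Real.exp (-(s * N')) =
        s * N * (s * (Y - γ * N)) * Real.exp (-(s * N)) -
        s * N' * (s * (Y' - γ * N')) * Real.exp (-(s * N')) := by ring
    rw [e1]
    refine h2.trans ?_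
    have e2 : s * (Y - γ * N) - s * (Y' - γ * N') = s * ((Y - Y') - γ * (N - N')) := by ring
    have e3 : |s * (Y - γ * N) - s * (Y' - γ * N')| ≤
        s * (|Y - Y'| + |γ| * |(N : ℝ) - N'|) := by
      rw [e2, abs_mul, abs_of_pos hs]
      refine mul_le_mul_of_nonneg_left ?_ hs.le
      refine (abs_sub _ _).trans ?_
      rw [abs_mul]
    have e4 : |(N : ℝ) - N'| = N' - N := by
      rw [abs_of_nonpos (by linarith)]; ring
    have e5 : 0 ≤ |Y - Y'| := abs_nonneg _
    have e6 : (0 : ℝ) ≤ N' - N := by linarith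
    rw [e4] at e3 ⊢
    have g1 : (0 : ℝ) ≤ s * (N' - N) := mul_nonneg hs.le e6
    have g2 : 0 ≤ s * |Y - Y'| := mul_nonneg hs.le e5
    have g3 : 0 ≤ c1 * (s * |Y - Y'|) := mul_nonneg hc1 g2
    have g4 : 0 ≤ |γ| * (s * |Y - Y'|) := mul_nonneg hγ g2
    calc 5 * c1 * (s * N' - s * N) + |s * (Y - γ * N) - s * (Y' - γ * N')|
        ≤ 5 * c1 * (s * N' - s * N) + s * (|Y - Y'| + |γ| * (N' - N)) := by linarith
      _ ≤ (1 + 5 * c1 + |γ|) * s * (N' - N + |Y - Y'|) := by nlinarith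
  refine ⟨1 + 5 * c1 + |γ|, hc0, by linarith, ?_, ?_, ?_⟩
  · intro s; simp
  · intro s hs hs1 N Y hY
    have hN : (0 : ℝ) ≤ N := Nat.cast_nonneg N
    have hx : 0 ≤ s * (N : ℝ) := by positivity
    have e1 : s ^ 2 * N * (Y - γ * N) * Real.exp (-(s * N)) =
        s * N * Real.exp (-(s * N)) * (s * (Y - γ * N)) := by ring
    have e2 : 0 ≤ s * N * Real.exp (-(s * N)) := by positivity
    have e3 : |s ^ 2 * N * (Y - γ * N) * Real.exp (-(s * N))| ≤
        s * N * Real.exp (-(s * N)) * (c1 * (s * N)) := by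
      rw [e1, abs_mul, abs_of_nonneg e2]
      exact mul_le_mul_of_nonneg_left (hyb s hs N Y hY) e2
    refine e3.trans ?_
    have x1 := wsq_x_exp (x := s * (N : ℝ))
    have x2 := wsq_x2_exp hx
    have c0' : 0 ≤ 1 + 5 * c1 + |γ| := by linarith
    rw [mul_min_of_nonneg _ _ c0']
    refine le_min ?_ ?_
    · have : s * N * Real.exp (-(s * N)) * (c1 * (s * N)) =
          c1 * ((s * N) ^ 2 * Real.exp (-(s * N))) := by ring
      rw [this]
      have := mul_le_mul_of_nonneg_left x2 hc1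
      linarith
    · have h1 : s * N * Real.exp (-(s * N)) * (c1 * (s * N)) ≤ 1 * (c1 * (s * N)) :=
        mul_le_mul_of_nonneg_right x1 (mul_nonneg hc1 hx)
      have h2 : 1 * (c1 * (s * N)) ≤ (1 + 5 * c1 + |γ|) * (s * N) := by
        rw [one_mul]
        exact mul_le_mul_of_nonneg_right (by linarith) hx
      exact h1.trans h2
  · intro s hs hs1 N N' Y Y' hY hY'
    rcases le_total N N' with h | h
    · exact key s hs N N' Y Y' hY h
    · have h1 := key s hs N' N Y' Y hY' h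
      rw [abs_sub_comm, abs_sub_comm (N : ℝ), abs_sub_comm Y]
      exact h1

theorem isW_exp (a t η c0 : ℝ) (as : ℝ → ℝ) (ha : 0 ≤ a) (ht : 0 ≤ t) (hc0 : 0 ≤ c0)
    (h0 : ∀ s, 0 ≤ as s) (h1 : ∀ s, 0 < s → s ≤ 1 → as s ≤ a * s) : ∃ c, IsW (fun s N Y =>
      1 - Real.exp (-(as s * max 0 (t * Y + η * N)))) c0 c := by
  have hη : 0 ≤ |η| := abs_nonneg η
  have c2 : 0 ≤ a * (t * c0 + |η|) := by positivity
  have c3 : 0 ≤ a * (t + |η|) := by positivity
  refine ⟨1 + a * (t * c0 + |η|) + a * (t + |η|), hc0, by linarith, ?_, ?_, ?_⟩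
  · intro s; simp
  · intro s hs hs1 N Y hY
    have hN : (0 : ℝ) ≤ N := Nat.cast_nonneg N
    have hx : 0 ≤ s * (N : ℝ) := by positivity
    have hm : 0 ≤ max 0 (t * Y + η * N) := le_max_left _ _
    have hz : 0 ≤ as s * max 0 (t * Y + η * N) := mul_nonneg (h0 s) hm
    have hm2 : max 0 (t * Y + η * N) ≤ (t * c0 + |η|) * N := by
      refine max_le (by positivity) ?_
      have g1 : t * Y ≤ t * (c0 * N) :=
        mul_le_mul_of_nonneg_left ((le_abs_self Y).trans hY) ht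
      have g2 : η * N ≤ |η| * N := mul_le_mul_of_nonneg_right (le_abs_self η) hN
      nlinarith
    have hz2 : as s * max 0 (t * Y + η * N) ≤ a * (t * c0 + |η|) * (s * N) := by
      calc as s * max 0 (t * Y + η * N) ≤ (a * s) * ((t * c0 + |η|) * N) :=
            mul_le_mul (h1 s hs hs1) hm2 hm (by positivity)
        _ = a * (t * c0 + |η|) * (s * N) := by ring
    have e1 : Real.exp (-(as s * max 0 (t * Y + η * N))) ≤ 1 := by
      rw [Real.exp_le_one_iff]; linarith
    have e2 : 0 < Real.exp (-(as s * max 0 (t * Y + η * N))) := Real.exp_pos _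
    have e3 : 1 - Real.exp (-(as s * max 0 (t * Y + η * N))) ≤ as s * max 0 (t * Y + η * N) :=
      wsq_one_sub_le
    show |1 - Real.exp (-(as s * max 0 (t * Y + η * N)))| ≤ _
    rw [abs_of_nonneg (by linarith), mul_min_of_nonneg _ _ (by linarith)]
    refine le_min (by linarith) ?_
    have g1 : 0 ≤ s * (N : ℝ) * (1 + a * (t + |η|)) := by positivity
    calc 1 - Real.exp (-(as s * max 0 (t * Y + η * N))) ≤ a * (t * c0 + |η|) * (s * N) :=
          e3.trans hz2
      _ ≤ (1 + a * (t * c0 + |η|) + a * (t + |η|)) * (s * N) := by nlinarith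
  · intro s hs hs1 N N' Y Y' hY hY'
    have hm : 0 ≤ max 0 (t * Y + η * N) := le_max_left _ _
    have hm' : 0 ≤ max 0 (t * Y' + η * N') := le_max_left _ _
    have hz : 0 ≤ as s * max 0 (t * Y + η * N) := mul_nonneg (h0 s) hm
    have hz' : 0 ≤ as s * max 0 (t * Y' + η * N') := mul_nonneg (h0 s) hm'
    have e1 := wsq_exp_lip hz hz'
    have e2 : |max 0 (t * Y + η * N) - max 0 (t * Y' + η * N')| ≤
        |(t * Y + η * N) - (t * Y' + η * N')| := by
      have := abs_max_sub_max_le_abs (t * Y + η * N) (t * Y' + η * N') 0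
      rw [max_comm, max_comm 0 (t * Y' + η * N')]
      exact this
    have e3 : |(t * Y + η * N) - (t * Y' + η * N')| ≤ t * |Y - Y'| + |η| * |(N : ℝ) - N'| := by
      have : (t * Y + η * N) - (t * Y' + η * N') = t * (Y - Y') + η * (N - N') := by ring
      rw [this]
      refine (abs_add_le _ _).trans ?_
      rw [abs_mul, abs_mul, abs_of_nonneg ht]
    have e4 : |as s * max 0 (t * Y + η * N) - as s * max 0 (t * Y' + η * N')| ≤
        (a * s) * (t * |Y - Y'| + |η| * |(N : ℝ) - N'|) := by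
      rw [← mul_sub, abs_mul, abs_of_nonneg (h0 s)]
      exact mul_le_mul (h1 s hs hs1) (e2.trans e3) (abs_nonneg _) (by positivity)
    have e5 : |(1 - Real.exp (-(as s * max 0 (t * Y + η * N)))) -
        (1 - Real.exp (-(as s * max 0 (t * Y' + η * N'))))| ≤
        (a * s) * (t * |Y - Y'| + |η| * |(N : ℝ) - N'|) := by
      have : (1 - Real.exp (-(as s * max 0 (t * Y + η * N)))) -
        (1 - Real.exp (-(as s * max 0 (t * Y' + η * N')))) =
        -(Real.exp (-(as s * max 0 (t * Y + η * N))) -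
          Real.exp (-(as s * max 0 (t * Y' + η * N')))) := by ring
      rw [this, abs_neg]
      exact e1.trans e4
    refine e5.trans ?_
    set A : ℝ := |(N : ℝ) - N'| with hA
    set B : ℝ := |Y - Y'| with hB
    have hA0 : 0 ≤ A := abs_nonneg _
    have hB0 : 0 ≤ B := abs_nonneg _
    have g1 : a * s * (t * B + |η| * A) ≤ a * (t + |η|) * s * (A + B) := by
      have g2 : 0 ≤ a * s * t * A := by positivity
      have g3 : 0 ≤ a * s * |η| * B := by positivity
      nlinarith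
    have g4 : a * (t + |η|) * s * (A + B) ≤
        (1 + a * (t * c0 + |η|) + a * (t + |η|)) * s * (A + B) := by
      have g5 : 0 ≤ s * (A + B) := by positivity
      have g6 : 0 ≤ (1 + a * (t * c0 + |η|)) * (s * (A + B)) := by positivity
      nlinarith
    exact g1.trans g4

theorem isW_one : IsW (fun s N (_ : ℝ) => 1 - Real.exp (-(s * N))) 0 1 := by
  refine ⟨le_rfl, le_rfl, ?_, ?_, ?_⟩
  · intro s; simp
  · intro s hs hs1 N Y hY
    have hN : (0 : ℝ) ≤ N := Nat.cast_nonneg N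
    have hx : 0 ≤ s * (N : ℝ) := by positivity
    have e1 : Real.exp (-(s * (N : ℝ))) ≤ 1 := by
      rw [Real.exp_le_one_iff]; linarith
    have e2 : 0 < Real.exp (-(s * (N : ℝ))) := Real.exp_pos _
    show |1 - Real.exp (-(s * (N : ℝ)))| ≤ 1 * min 1 (s * (N : ℝ))
    rw [abs_of_nonneg (by linarith), one_mul]
    exact le_min (by linarith) wsq_one_sub_le
  · intro s hs hs1 N N' Y Y' hY hY'
    have hx : 0 ≤ s * (N : ℝ) := by positivity
    have hx' : 0 ≤ s * (N' : ℝ) := by positivity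
    have e1 := wsq_exp_lip hx hx'
    have e2 : |(1 - Real.exp (-(s * (N : ℝ)))) - (1 - Real.exp (-(s * (N' : ℝ))))| =
        |Real.exp (-(s * (N : ℝ))) - Real.exp (-(s * (N' : ℝ)))| := by
      rw [← abs_neg]; congr 1; ring
    show |(1 - Real.exp (-(s * (N : ℝ)))) - (1 - Real.exp (-(s * (N' : ℝ))))| ≤ _
    rw [e2]
    refine e1.trans ?_
    rw [← mul_sub, abs_mul, abs_of_pos hs, one_mul]
    exact mul_le_mul_of_nonneg_left (le_add_of_nonneg_right (abs_nonneg _)) hs.le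

end Pool.Agent.PB.S8
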