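import Pool.Agent.PB.S8.NB
import Pool.Agent.PB.S8.WSq

/-!
# PB S8-Cloc (0.6 h, uses Base, MeasL, NB, Out6): the functional `cloc`

* `W1_lsf`: W1 = Wf 0 0 (fun s N _ => 1 - e^{-sN}) definitionally; IsW with c0 = 0, c = 1; Out6.isLSF.
* `tendsto_cloc`: Out6.loc for W1: (EWH - cloc EW)/sqrt s → 0, EW W1 = Mr >= c sqrt s, so EWH/EW → cloc.
* a local function takes finitely many values (status of the edges of the finite set B), so it is bounded; measurable: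
  O ↦ H O depends on finitely many edges. Integrability of H W1.
* `cloc_sub_const`: linearity of the limit. `cloc_mono`, `cloc_nonneg`: order of limits (W1 >= 0). Limit uniqueness
  (`tendsto_nhds_unique`).
-/

set_option autoImplicit false
open MeasureTheory Filter Topology
open scoped ENNReal BigOperators

namespace Pool.Agent.PB.S8

open Pool.Agent.PB

variable {d : ℕ}

theorem W1_lsf (h6 : Out6 d) : ∃ c, IsLSF (W1 (d := d)) c := by
  obtain ⟨c', h⟩ := h6.isLSF 0 (fun _ => 0) _ 0 1 isW_one (fun L _ _ => by simp)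
  exact ⟨c', h⟩

private theorem LocalF.eq_inter {B : Set (Sym2 (V d))} {H : Set (Sym2 (V d)) → ℝ}
    (hL : LocalF B H) (O : Set (Sym2 (V d))) : H O = H (O ∩ B) :=
  hL.2 _ _ (by rw [Set.inter_assoc, Set.inter_self])

theorem LocalF.bounded {B : Set (Sym2 (V d))} {H : Set (Sym2 (V d)) → ℝ} (hL : LocalF B H) :
    ∃ C : ℝ, ∀ O, |H O| ≤ C := by
  obtain ⟨C, hC⟩ := (hL.1.finite_subsets.image fun E => |H E|).bddAbove
  refine ⟨C, fun O => ?_⟩
  rw [LocalF.eq_inter hL O]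
  exact hC ⟨O ∩ B, Set.inter_subset_right, rfl⟩

theorem LocalF.measurable {B : Set (Sym2 (V d))} {H : Set (Sym2 (V d)) → ℝ} (hL : LocalF B H) :
    Measurable (fun ω : Om d => H (Oc ω)) := by
  intro S _
  have h1 : (fun ω : Om d => H (Oc ω)) ⁻¹' S =
      ⋃ E ∈ {E : Set (Sym2 (V d)) | E ⊆ B ∧ H E ∈ S}, {ω : Om d | Oc ω ∩ B = E} := by
    ext ω
    simp only [Set.mem_preimage, Set.mem_iUnion, Set.mem_ofPred_eq, exists_prop]
    constructor
    · intro h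
      exact ⟨Oc ω ∩ B, ⟨Set.inter_subset_right, by rwa [← LocalF.eq_inter hL]⟩, rfl⟩
    · rintro ⟨E, ⟨_, hE⟩, h⟩
      rw [LocalF.eq_inter hL, h]
      exact hE
  rw [h1]
  refine Set.Finite.measurableSet_biUnion (hL.1.finite_subsets.subset fun E hE => hE.1) ?_
  intro E hE
  have h2 : {ω : Om d | Oc ω ∩ B = E} = ⋂ e ∈ B, {ω : Om d | e ∈ Oc ω ↔ e ∈ E} := by
    ext ω
    simp only [Set.mem_ofPred_eq, Set.mem_iInter]
    constructor
    · intro h e he
      rw [← h]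
      exact ⟨fun h' => ⟨h', he⟩, fun h' => h'.1⟩
    · intro h
      ext e
      constructor
      · rintro ⟨h', he⟩
        exact (h e he).1 h'
      · intro h'
        exact ⟨(h e (hE.1 h')).2 h', hE.1 h'⟩
  rw [h2]
  refine Set.Finite.measurableSet_biInter hL.1 fun e _ => ?_
  have h3 : MeasurableSet {ω : Om d | e ∈ Oc ω} := opn_MES (pc d) e
  by_cases he : e ∈ E
  · simpa [he] using h3
  · have h4 : {ω : Om d | e ∈ Oc ω ↔ e ∈ E} = {ω : Om d | e ∈ Oc ω}ᶜ := by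
      ext ω
      exact ⟨fun h h' => he (h.1 h'), fun h => ⟨fun h' => absurd h' h, fun h' => absurd h' he⟩⟩
    rw [h4]
    exact h3.compl

private theorem EW_pos (h5 : Out5 d) : ∃ c : ℝ, 0 < c ∧ ∀ s : ℝ, 0 < s → s ≤ 1 →
    c * Real.sqrt s ≤ EW W1 s (D0 : Del (V d)) 0 := by
  obtain ⟨c, hc, h⟩ := Mr_low h5
  exact ⟨c, hc, fun s hs hs1 => by rw [EW_W1 h5 hs]; exact h s hs hs1⟩

theorem tendsto_cloc (h5 : Out5 d) (h6 : Out6 d) {B : Set (Sym2 (V d))}
    {H : Set (Sym2 (V d)) → ℝ} (hL : LocalF B H) {A : Del (V d)} {y : V d} (hA : A.Finite)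
    (hy : y ∉ A.S) :
    Tendsto (fun s : ℝ => EWH H W1 s A y / EW W1 s (D0 : Del (V d)) 0) (𝓝[>] 0)
      (𝓝 (cloc H A y)) := by
  obtain ⟨c', hW⟩ := W1_lsf h6
  obtain ⟨c, hc, hlow⟩ := EW_pos h5
  have h1 := h6.loc B H hL W1 c' hW A y hA hy
  have hmem : Set.Ioc (0 : ℝ) 1 ∈ 𝓝[>] (0 : ℝ) := Ioc_mem_nhdsGT one_pos
  rw [tendsto_iff_norm_sub_tendsto_zero]
  have h2 : Tendsto (fun s : ℝ => |(EWH H W1 s A y - cloc H A y * EW W1 s (D0 : Del (V d)) 0) /
      Real.sqrt s| * (1 / c)) (𝓝[>] 0) (𝓝 0) := by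
    have h3 := h1.abs.mul_const (1 / c)
    simpa using h3
  refine squeeze_zero' (Eventually.of_forall fun s => norm_nonneg _) ?_ h2
  filter_upwards [hmem] with s hs
  have hs0 : 0 < Real.sqrt s := Real.sqrt_pos.2 hs.1
  have hE := hlow s hs.1 hs.2
  have hE0 : 0 < EW W1 s (D0 : Del (V d)) 0 := lt_of_lt_of_le (mul_pos hc hs0) hE
  rw [Real.norm_eq_abs]
  have h4 : EWH H W1 s A y / EW W1 s (D0 : Del (V d)) 0 - cloc H A y =
      (EWH H W1 s A y - cloc H A y * EW W1 s (D0 : Del (V d)) 0) /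
        EW W1 s (D0 : Del (V d)) 0 := by
    field_simp
  rw [h4, abs_div, abs_div, abs_of_pos hE0, abs_of_pos hs0]
  rw [div_mul_div_comm, mul_one]
  refine div_le_div_of_nonneg_left (abs_nonneg _) (by positivity) ?_
  linarith [mul_comm c (Real.sqrt s)]

private theorem W1_nonneg {s : ℝ} (hs : 0 ≤ s) (O : Set (Sym2 (V d))) (y : V d) :
    0 ≤ W1 s O y := by
  unfold W1
  have : Real.exp (-(s * (Nc O y : ℝ))) ≤ 1 := Real.exp_le_one_iff.2 (by
    have : 0 ≤ s * (Nc O y : ℝ) := by positivity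
    linarith)
  linarith

private theorem W1_le (s : ℝ) (O : Set (Sym2 (V d))) (y : V d) : W1 s O y ≤ 1 := by
  unfold W1
  have := Real.exp_pos (-(s * (Nc O y : ℝ)))
  linarith

private theorem meas_W1 (s : ℝ) : Measurable (fun ω : Om d => W1 s (Oc ω) (0 : V d)) := by
  unfold W1
  exact measurable_const.sub (Real.measurable_exp.comp ((measurable_Nc 0).const_mul s).neg)

private theorem int_HW1 {B : Set (Sym2 (V d))} {H : Set (Sym2 (V d)) → ℝ} (hL : LocalF B H)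
    {s : ℝ} (hs : 0 ≤ s) :
    Integrable (fun ω : Om d => H (Oc ω) * W1 s (Oc ω) (0 : V d)) (Pr d) := by
  obtain ⟨C, hC⟩ := LocalF.bounded hL
  refine Integrable.of_bound (C := C * 1)
    ((LocalF.measurable hL).mul (meas_W1 s)).aestronglyMeasurable ?_
  refine Eventually.of_forall fun ω => ?_
  rw [Real.norm_eq_abs, abs_mul, abs_of_nonneg (W1_nonneg hs _ _)]
  exact mul_le_mul (hC _) (W1_le _ _ _) (W1_nonneg hs _ _) ((abs_nonneg _).trans (hC ∅))

private theorem int_W1 {s : ℝ} (hs : 0 ≤ s) :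
    Integrable (fun ω : Om d => W1 s (Oc ω) (0 : V d)) (Pr d) := by
  refine Integrable.of_bound (C := 1) (meas_W1 s).aestronglyMeasurable ?_
  refine Eventually.of_forall fun ω => ?_
  rw [Real.norm_eq_abs, abs_of_nonneg (W1_nonneg hs _ _)]
  exact W1_le _ _ _

private theorem EWH_D0 (H : Set (Sym2 (V d)) → ℝ) (s : ℝ) :
    EWH H W1 s (D0 : Del (V d)) 0 = ∫ ω : Om d, H (Oc ω) * W1 s (Oc ω) (0 : V d) ∂(Pr d) := by
  unfold EWH
  simp only [WA_D0]

private theorem EW_D0 (s : ℝ) :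
    EW W1 s (D0 : Del (V d)) 0 = ∫ ω : Om d, W1 s (Oc ω) (0 : V d) ∂(Pr d) := by
  unfold EW
  simp only [WA_D0]

private theorem D0_fin : (D0 : Del (V d)).Finite := ⟨Set.finite_empty, Set.finite_empty⟩

private theorem D0_S (y : V d) : y ∉ (D0 : Del (V d)).S := Set.notMem_empty _

theorem cloc_sub_const (h5 : Out5 d) (h6 : Out6 d) {B : Set (Sym2 (V d))}
    {H : Set (Sym2 (V d)) → ℝ} (hL : LocalF B H) (γ : ℝ) :
    cloc (fun O => H O - γ) (D0 : Del (V d)) 0 = cloc H (D0 : Del (V d)) 0 - γ := by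
  have hL' : LocalF B (fun O => H O - γ) := ⟨hL.1, fun O O' h => by
    simp only [hL.2 O O' h]⟩
  have h1 := tendsto_cloc h5 h6 hL' (A := (D0 : Del (V d))) D0_fin (D0_S 0)
  have h2 := (tendsto_cloc h5 h6 hL (A := (D0 : Del (V d))) D0_fin (D0_S 0)).sub_const γ
  refine tendsto_nhds_unique h1 (h2.congr' ?_)
  obtain ⟨c, hc, hlow⟩ := EW_pos h5
  have hmem : Set.Ioc (0 : ℝ) 1 ∈ 𝓝[>] (0 : ℝ) := Ioc_mem_nhdsGT one_pos
  filter_upwards [hmem] with s hs
  have hs0 : 0 < Real.sqrt s := Real.sqrt_pos.2 hs.1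
  have hE0 : 0 < EW W1 s (D0 : Del (V d)) 0 :=
    lt_of_lt_of_le (mul_pos hc hs0) (hlow s hs.1 hs.2)
  have h3 : EWH (fun O => H O - γ) W1 s (D0 : Del (V d)) 0 =
      EWH H W1 s (D0 : Del (V d)) 0 - γ * EW W1 s (D0 : Del (V d)) 0 := by
    rw [EWH_D0, EWH_D0, EW_D0, ← integral_const_mul, ← integral_sub (int_HW1 hL hs.1.le)
      ((int_W1 hs.1.le).const_mul γ)]
    congr 1
    funext ω
    ring
  rw [h3]
  field_simp

theorem cloc_mono (h5 : Out5 d) (h6 : Out6 d) {B B' : Set (Sym2 (V d))}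
    {H H' : Set (Sym2 (V d)) → ℝ} (hL : LocalF B H) (hL' : LocalF B' H') (h : ∀ O, H O ≤ H' O) :
    cloc H (D0 : Del (V d)) 0 ≤ cloc H' (D0 : Del (V d)) 0 := by
  have h1 := tendsto_cloc h5 h6 hL (A := (D0 : Del (V d))) D0_fin (D0_S 0)
  have h2 := tendsto_cloc h5 h6 hL' (A := (D0 : Del (V d))) D0_fin (D0_S 0)
  refine le_of_tendsto_of_tendsto h1 h2 ?_
  have hmem : Set.Ioc (0 : ℝ) 1 ∈ 𝓝[>] (0 : ℝ) := Ioc_mem_nhdsGT one_pos
  filter_upwards [hmem] with s hs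
  have hE : 0 ≤ EW W1 s (D0 : Del (V d)) 0 := by
    rw [EW_D0]
    exact integral_nonneg fun ω => W1_nonneg hs.1.le _ _
  refine div_le_div_of_nonneg_right ?_ hE
  rw [EWH_D0, EWH_D0]
  exact integral_mono (int_HW1 hL hs.1.le) (int_HW1 hL' hs.1.le) fun ω =>
    mul_le_mul_of_nonneg_right (h _) (W1_nonneg hs.1.le _ _)

theorem cloc_nonneg (h5 : Out5 d) (h6 : Out6 d) {B : Set (Sym2 (V d))}
    {H : Set (Sym2 (V d)) → ℝ} (hL : LocalF B H) (h : ∀ O, 0 ≤ H O) :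
    0 ≤ cloc H (D0 : Del (V d)) 0 := by
  have h1 := tendsto_cloc h5 h6 hL (A := (D0 : Del (V d))) D0_fin (D0_S 0)
  refine ge_of_tendsto h1 ?_
  have hmem : Set.Ioc (0 : ℝ) 1 ∈ 𝓝[>] (0 : ℝ) := Ioc_mem_nhdsGT one_pos
  filter_upwards [hmem] with s hs
  refine div_nonneg ?_ ?_
  · rw [EWH_D0]
    exact integral_nonneg fun ω => mul_nonneg (h _) (W1_nonneg hs.1.le _ _)
  · rw [EW_D0]
    exact integral_nonneg fun ω => W1_nonneg hs.1.le _ _

end Pool.Agent.PB.S8
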