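import Pool.Agent.PB.S8.Lln
import Pool.Agent.PB.S8.NB

/-!
# PB S8-Diff (0.9 h, uses Lln, NB, Base): 8.2 (second part): E min(1, s |Y - γN|) = o(sqrt s)

N = Nc, Y = Yf R g, γ = gbr R g, c0 >= |g|, c1 = c0 + |γ| so |Y - γN| <= c1 N. For 0 < a < 1 < b', δ > 0 split
min(1, s|Y - γN|) <= c1 sN 1{sN <= a} + 1{sN >= b'} + δ sN 1{a <= sN <= b', |Y-γN| <= δN} + 1{a <= sN <= b', |Y-γN| > δN}
(third term <= δ b' 1{sN >= a}): integral <= c1 C sqrt a sqrt s + C sqrt(s/b') + δ b' C sqrt(s/a) + o(sqrt s)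
(small_bd, large_bd, lln). So limsup / sqrt s <= c1 C sqrt a + C/sqrt b' + δ b' C/sqrt a; choose a small, b' large, then δ small.
Formal: `Metric.tendsto` / for every ε > 0 eventually the quotient is < ε.
-/

set_option autoImplicit false
open MeasureTheory Filter Topology
open scoped ENNReal BigOperators

namespace Pool.Agent.PB.S8

open Pool.Agent.PB

variable {d : ℕ}

/-- pointwise splitting -/
theorem min_diff_pt {N Z s K c1 a b' δ : ℝ} (hN : 0 ≤ N) (hs : 0 < s) (hK : 0 ≤ K)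
    (hZ : |Z| ≤ c1 * N) (hc1 : 0 ≤ c1) (ha : 0 < a) (hb : 0 ≤ b') (hδ : 0 ≤ δ) :
    min 1 (K * s * |Z|) ≤ K * c1 * (if s * N ≤ a then s * N else 0) +
      Set.indicator {x : ℝ | b' ≤ x} (fun _ => (1 : ℝ)) (s * N) +
      K * δ * b' * Set.indicator {x : ℝ | a ≤ x} (fun _ => (1 : ℝ)) (s * N) +
      (Set.indicator {x : ℝ × ℝ × ℝ | a ≤ x.1 ∧ x.1 ≤ b' ∧ δ * x.2.1 < |x.2.2|}
        (fun _ => (1 : ℝ)) (s * N, N, Z)) := by
  have hsN : 0 ≤ s * N := mul_nonneg hs.le hN
  have h1 : 0 ≤ K * c1 * (if s * N ≤ a then s * N else 0) := by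
    apply mul_nonneg (mul_nonneg hK hc1)
    split_ifs
    · exact hsN
    · exact le_rfl
  have h2 : 0 ≤ Set.indicator {x : ℝ | b' ≤ x} (fun _ => (1 : ℝ)) (s * N) :=
    Set.indicator_nonneg (fun _ _ => zero_le_one) _
  have h3 : 0 ≤ K * δ * b' * Set.indicator {x : ℝ | a ≤ x} (fun _ => (1 : ℝ)) (s * N) :=
    mul_nonneg (mul_nonneg (mul_nonneg hK hδ) hb)
      (Set.indicator_nonneg (fun _ _ => zero_le_one) _)
  have h4 : 0 ≤ (Set.indicator {x : ℝ × ℝ × ℝ | a ≤ x.1 ∧ x.1 ≤ b' ∧ δ * x.2.1 < |x.2.2|}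
        (fun _ => (1 : ℝ)) (s * N, N, Z)) :=
    Set.indicator_nonneg (fun _ _ => zero_le_one) _
  by_cases hA : s * N ≤ a
  · have e1 : K * s * |Z| ≤ K * c1 * (if s * N ≤ a then s * N else 0) := by
      rw [if_pos hA]
      calc K * s * |Z| ≤ K * s * (c1 * N) :=
            mul_le_mul_of_nonneg_left hZ (mul_nonneg hK hs.le)
        _ = K * c1 * (s * N) := by ring
    have := min_le_right (1 : ℝ) (K * s * |Z|)
    linarith
  · push Not at hA
    by_cases hB : b' ≤ s * N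
    · have e2 : Set.indicator {x : ℝ | b' ≤ x} (fun _ => (1 : ℝ)) (s * N) = 1 :=
        Set.indicator_of_mem (by simpa using hB) _
      have := min_le_left (1 : ℝ) (K * s * |Z|)
      linarith
    · push Not at hB
      by_cases hD : δ * N < |Z|
      · have e4 : (Set.indicator {x : ℝ × ℝ × ℝ | a ≤ x.1 ∧ x.1 ≤ b' ∧ δ * x.2.1 < |x.2.2|}
            (fun _ => (1 : ℝ)) (s * N, N, Z)) = 1 := by
          apply Set.indicator_of_mem
          exact ⟨hA.le, hB.le, hD⟩
        have := min_le_left (1 : ℝ) (K * s * |Z|)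
        linarith
      · push Not at hD
        have e3 : Set.indicator {x : ℝ | a ≤ x} (fun _ => (1 : ℝ)) (s * N) = 1 :=
          Set.indicator_of_mem (by simpa using hA.le) _
        have e3' : K * s * |Z| ≤ K * δ * b' := by
          calc K * s * |Z| ≤ K * s * (δ * N) :=
                mul_le_mul_of_nonneg_left hD (mul_nonneg hK hs.le)
            _ = K * δ * (s * N) := by ring
            _ ≤ K * δ * b' := mul_le_mul_of_nonneg_left hB.le (mul_nonneg hK hδ)
        have := min_le_right (1 : ℝ) (K * s * |Z|)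
        rw [e3]
        rw [e3] at h3
        linarith

/-- abstract form -/
theorem min_diff_abs {Ω : Type*} [MeasurableSpace Ω] (μ : Measure Ω) [IsProbabilityMeasure μ]
    (N Z : Ω → ℝ) (hNm : Measurable N) (hZm : Measurable Z) (hN : ∀ ω, 0 ≤ N ω) (c1 : ℝ)
    (hc1 : 0 ≤ c1) (hZ : ∀ ω, |Z ω| ≤ c1 * N ω) (C : ℝ) (hC : 1 ≤ C)
    (hsm : ∀ s a : ℝ, 0 < s → s ≤ a →
      ∫ ω, (if s * N ω ≤ a then s * N ω else 0) ∂μ ≤ C * Real.sqrt a * Real.sqrt s)
    (hlg : ∀ s b' : ℝ, 0 < s → s ≤ b' →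
      (μ {ω | b' ≤ s * N ω}).toReal ≤ C * Real.sqrt (s / b'))
    (hlln : ∀ a b' η : ℝ, 0 < a → a < b' → 0 < η → Tendsto (fun s : ℝ =>
      (μ {ω | a ≤ s * N ω ∧ s * N ω ≤ b' ∧ η * N ω < |Z ω|}).toReal / Real.sqrt s)
        (𝓝[>] 0) (𝓝 0)) (K : ℝ) (hK : 0 ≤ K) :
    Tendsto (fun s : ℝ => (∫ ω, min 1 (K * s * |Z ω|) ∂μ) / Real.sqrt s) (𝓝[>] 0) (𝓝 0) := by
  have hC0 : 0 < C := by linarith
  have hnn : ∀ s : ℝ, 0 < s → 0 ≤ (∫ ω, min 1 (K * s * |Z ω|) ∂μ) / Real.sqrt s := by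
    intro s hs
    apply div_nonneg _ (Real.sqrt_nonneg _)
    apply integral_nonneg
    intro ω
    exact le_min zero_le_one (mul_nonneg (mul_nonneg hK hs.le) (abs_nonneg _))
  rw [Metric.tendsto_nhds]
  intro ε hε
  -- choose the parameters
  set a : ℝ := (ε / (5 * (K * c1 * C + 1))) ^ 2 with ha_def
  have hden : 0 < 5 * (K * c1 * C + 1) := by positivity
  have hsa : Real.sqrt a = ε / (5 * (K * c1 * C + 1)) := Real.sqrt_sq (by positivity)
  have ha : 0 < a := by positivity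
  have hsa0 : 0 < Real.sqrt a := Real.sqrt_pos.2 ha
  set b' : ℝ := (5 * C / ε) ^ 2 + a + 1 with hb_def
  have hb0 : 0 < b' := by positivity
  have hab : a < b' := by
    have : 0 ≤ (5 * C / ε) ^ 2 := by positivity
    rw [hb_def]; linarith
  have hsb : 5 * C / ε ≤ Real.sqrt b' := by
    apply Real.le_sqrt_of_sq_le
    rw [hb_def]; linarith
  have hsb0 : 0 < Real.sqrt b' := Real.sqrt_pos.2 hb0
  set δ : ℝ := ε * Real.sqrt a / (5 * (K * b' * C + 1)) with hδ_def
  have hden2 : 0 < 5 * (K * b' * C + 1) := by positivity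
  have hδ : 0 < δ := by positivity
  have hT1 : K * c1 * (C * Real.sqrt a) ≤ ε / 5 := by
    rw [hsa]
    have : K * c1 * (C * (ε / (5 * (K * c1 * C + 1)))) =
        (ε / 5) * ((K * c1 * C) / (K * c1 * C + 1)) := by
      field_simp
    rw [this]
    apply mul_le_of_le_one_right (by positivity)
    rw [div_le_one (by positivity)]
    linarith
  have hT2 : C / Real.sqrt b' ≤ ε / 5 := by
    rw [div_le_iff₀ hsb0]
    have := mul_le_mul_of_nonneg_left hsb (show 0 ≤ ε / 5 by positivity)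
    have e : ε / 5 * (5 * C / ε) = C := by field_simp
    linarith
  have hT3 : K * δ * b' * (C / Real.sqrt a) ≤ ε / 5 := by
    have : K * δ * b' * (C / Real.sqrt a) = (ε / 5) * ((K * b' * C) / (K * b' * C + 1)) := by
      rw [hδ_def]
      field_simp
    rw [this]
    apply mul_le_of_le_one_right (by positivity)
    rw [div_le_one (by positivity)]
    linarith
  have hev := (hlln a b' δ ha hab hδ)
  rw [Metric.tendsto_nhds] at hev
  filter_upwards [hev (ε / 5) (by positivity), self_mem_nhdsWithin,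
    mem_nhdsWithin_of_mem_nhds (Iio_mem_nhds ha)] with s h1 hs0 hsa'
  have hs : 0 < s := hs0
  have hsle : s ≤ a := le_of_lt hsa'
  have hss : 0 < Real.sqrt s := Real.sqrt_pos.2 hs
  rw [Real.dist_eq, sub_zero, abs_of_nonneg (hnn s hs)]
  rw [Real.dist_eq, sub_zero, abs_of_nonneg (by positivity)] at h1
  -- the integral
  have m1 : MeasurableSet {ω | b' ≤ s * N ω} := measurableSet_le measurable_const (hNm.const_mul s)
  have m2 : MeasurableSet {ω | a ≤ s * N ω} := measurableSet_le measurable_const (hNm.const_mul s)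
  have m3 : MeasurableSet {ω | a ≤ s * N ω ∧ s * N ω ≤ b' ∧ δ * N ω < |Z ω|} :=
    m2.inter ((measurableSet_le (hNm.const_mul s) measurable_const).inter
      (measurableSet_lt (hNm.const_mul δ) (measurable_abs.comp hZm)))
  have msm : Measurable (fun ω => if s * N ω ≤ a then s * N ω else 0) :=
    Measurable.ite (measurableSet_le (hNm.const_mul s) measurable_const) (hNm.const_mul s)
      measurable_const
  have i1 : Integrable (fun ω => K * c1 * (if s * N ω ≤ a then s * N ω else 0)) μ := by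
    apply Integrable.const_mul
    refine Integrable.of_bound msm.aestronglyMeasurable a (ae_of_all _ fun ω => ?_)
    have : 0 ≤ s * N ω := mul_nonneg hs.le (hN ω)
    split_ifs with h
    · rw [Real.norm_eq_abs, abs_of_nonneg this]; exact h
    · simpa using ha.le
  have i2 : Integrable (Set.indicator {ω | b' ≤ s * N ω} (fun _ => (1 : ℝ))) μ :=
    (integrable_const 1).indicator m1
  have i3 : Integrable (fun ω => K * δ * b' *
      Set.indicator {ω | a ≤ s * N ω} (fun _ => (1 : ℝ)) ω) μ :=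
    ((integrable_const 1).indicator m2).const_mul _
  have i4 : Integrable (Set.indicator {ω | a ≤ s * N ω ∧ s * N ω ≤ b' ∧ δ * N ω < |Z ω|}
      (fun _ => (1 : ℝ))) μ := (integrable_const 1).indicator m3
  have hpt : ∀ ω, min 1 (K * s * |Z ω|) ≤
      ((K * c1 * (if s * N ω ≤ a then s * N ω else 0) +
        Set.indicator {ω | b' ≤ s * N ω} (fun _ => (1 : ℝ)) ω) +
      K * δ * b' * Set.indicator {ω | a ≤ s * N ω} (fun _ => (1 : ℝ)) ω) +
      Set.indicator {ω | a ≤ s * N ω ∧ s * N ω ≤ b' ∧ δ * N ω < |Z ω|}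
        (fun _ => (1 : ℝ)) ω := by
    intro ω
    exact min_diff_pt (hN ω) hs hK (hZ ω) hc1 ha hb0.le hδ.le
  have hint : ∫ ω, min 1 (K * s * |Z ω|) ∂μ ≤
      ((K * c1 * (∫ ω, (if s * N ω ≤ a then s * N ω else 0) ∂μ) +
        (μ {ω | b' ≤ s * N ω}).toReal) +
      K * δ * b' * (μ {ω | a ≤ s * N ω}).toReal) +
      (μ {ω | a ≤ s * N ω ∧ s * N ω ≤ b' ∧ δ * N ω < |Z ω|}).toReal := by
    have hmono := integral_mono_of_nonneg (μ := μ)
      (ae_of_all _ fun ω => (le_min zero_le_one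
        (mul_nonneg (mul_nonneg hK hs.le) (abs_nonneg (Z ω))) : (0 : ℝ) ≤ _))
      (((i1.add i2).add i3).add i4) (ae_of_all _ hpt)
    refine hmono.trans (le_of_eq ?_)
    rw [integral_add' ((i1.add i2).add i3) i4, integral_add' (i1.add i2) i3,
      integral_add' i1 i2, integral_const_mul, integral_const_mul,
      integral_indicator_const _ m1, integral_indicator_const _ m2,
      integral_indicator_const _ m3]
    simp [Measure.real]
  have hb1 : ∫ ω, min 1 (K * s * |Z ω|) ∂μ ≤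
      ((K * c1 * (C * Real.sqrt a * Real.sqrt s) + C * Real.sqrt (s / b')) +
      K * δ * b' * (C * Real.sqrt (s / a))) +
      (μ {ω | a ≤ s * N ω ∧ s * N ω ≤ b' ∧ δ * N ω < |Z ω|}).toReal := by
    refine hint.trans ?_
    have e1 := mul_le_mul_of_nonneg_left (hsm s a hs hsle) (mul_nonneg hK hc1)
    have e2 := hlg s b' hs (hsle.trans hab.le)
    have e3 := mul_le_mul_of_nonneg_left (hlg s a hs hsle)
      (mul_nonneg (mul_nonneg hK hδ.le) hb0.le)
    linarith
  have hq : (((K * c1 * (C * Real.sqrt a * Real.sqrt s) + C * Real.sqrt (s / b')) +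
      K * δ * b' * (C * Real.sqrt (s / a))) +
      (μ {ω | a ≤ s * N ω ∧ s * N ω ≤ b' ∧ δ * N ω < |Z ω|}).toReal) / Real.sqrt s =
      K * c1 * (C * Real.sqrt a) + C / Real.sqrt b' + K * δ * b' * (C / Real.sqrt a) +
      (μ {ω | a ≤ s * N ω ∧ s * N ω ≤ b' ∧ δ * N ω < |Z ω|}).toReal / Real.sqrt s := by
    rw [Real.sqrt_div hs.le, Real.sqrt_div hs.le]
    field_simp
  calc (∫ ω, min 1 (K * s * |Z ω|) ∂μ) / Real.sqrt s ≤ _ :=
        div_le_div_of_nonneg_right hb1 hss.le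
    _ = _ := hq
    _ ≤ ε / 5 + ε / 5 + ε / 5 +
        (μ {ω | a ≤ s * N ω ∧ s * N ω ≤ b' ∧ δ * N ω < |Z ω|}).toReal / Real.sqrt s := by
        linarith
    _ < ε := by linarith

theorem min_diff (h5 : Out5 d) (h6 : Out6 d) (R : ℕ) (g : Set (V d) → ℝ) (c : ℝ)
    (hg : ∀ L : Set (V d), L.Finite → (0 : V d) ∈ L → |g L| ≤ c) (K : ℝ) (hK : 0 ≤ K) :
    Tendsto (fun s : ℝ => (∫ ω : Om d, min 1 (K * s *
        |Yf R g (Oc ω) 0 - gbr R g * (Nc (Oc ω) (0 : V d) : ℝ)|) ∂(Pr d)) / Real.sqrt s)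
      (𝓝[>] 0) (𝓝 0) := by
  obtain ⟨C₁, hC₁, hsm⟩ := small_bd h5
  obtain ⟨C₂, hC₂, hlg⟩ := large_bd h5
  refine min_diff_abs (Pr d) (fun ω => (Nc (Oc ω) (0 : V d) : ℝ))
    (fun ω => Yf R g (Oc ω) 0 - gbr R g * (Nc (Oc ω) (0 : V d) : ℝ)) (measurable_Nc 0)
    ((measurable_Yf R g 0).sub ((measurable_Nc 0).const_mul _)) (fun ω => Nat.cast_nonneg _)
    (|c| + |gbr R g|) (by positivity) ?_ (max C₁ C₂) (le_max_of_le_left hC₁) ?_ ?_ ?_ K hK
  · intro ω
    have h1 := Yf_bound (R := R) hg (Oc ω) (0 : V d)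
    have hN : (0 : ℝ) ≤ (Nc (Oc ω) (0 : V d) : ℝ) := Nat.cast_nonneg _
    calc |Yf R g (Oc ω) 0 - gbr R g * (Nc (Oc ω) (0 : V d) : ℝ)|
        ≤ |Yf R g (Oc ω) 0| + |gbr R g * (Nc (Oc ω) (0 : V d) : ℝ)| := abs_sub _ _
      _ ≤ c * (Nc (Oc ω) (0 : V d) : ℝ) + |gbr R g| * (Nc (Oc ω) (0 : V d) : ℝ) := by
          rw [abs_mul, abs_of_nonneg hN]
          linarith
      _ ≤ (|c| + |gbr R g|) * (Nc (Oc ω) (0 : V d) : ℝ) := by
          rw [add_mul]
          have := mul_le_mul_of_nonneg_right (le_abs_self c) hN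
          linarith
  · intro s a hs hsa
    refine (hsm s a hs hsa).trans ?_
    have : 0 ≤ Real.sqrt a * Real.sqrt s := by positivity
    rw [mul_assoc, mul_assoc]
    exact mul_le_mul_of_nonneg_right (le_max_left _ _) this
  · intro s b' hs hsb
    refine (hlg s b' hs hsb).trans ?_
    exact mul_le_mul_of_nonneg_right (le_max_right _ _) (Real.sqrt_nonneg _)
  · intro a b' η ha hab hη
    exact lln h5 h6 R g c hg a b' η ha hab hη

end Pool.Agent.PB.S8
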