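import Pool.Agent.PB.S8.Cloc

/-!
# PB S8-GL (0.5 h, uses Base, Cloc, Out6 (psi_*), Link (mem_U1 / card)): 8.5 (fields gL_bd, gbar_nonneg, gbar_anti, gbar_lim)

* 0 <= gL L <= 2d: psi_nonneg, psi_le for A = ofSet L (finite), v ∉ L; |U1 d| = 2d (or <= 2d: Finset.card_image_le,
  card (Fin d × Bool) = 2d).
* L ⊆ L' finite: gL L' <= gL L: termwise; v ∉ L' → v ∉ L and psi_anti (psiK with Finsets: L = toFinset).
* gbar R = cloc (fun O => gL (Lb0 R O 0)): cloc_nonneg, cloc_mono with Lb0_mono, Lb0_local, Lb0_finite.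
* antitone + bounded below: tendsto_atTop_ciInf, and ginf = limUnder (Tendsto.limUnder_eq).
-/

set_option autoImplicit false
open MeasureTheory Filter Topology
open scoped ENNReal BigOperators

namespace Pool.Agent.PB.S8

open Pool.Agent.PB

variable {d : ℕ}

theorem card_U1_le (d : ℕ) : (U1 d).card ≤ 2 * d := by
  classical
  unfold U1
  refine Finset.card_image_le.trans ?_
  simp [Finset.card_univ, Fintype.card_prod, mul_comm]

theorem gL_bd (h6 : Out6 d) (L : Set (V d)) (hL : L.Finite) : 0 ≤ gL L ∧ gL L ≤ 2 * d := by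
  classical
  have hA : (Del.ofSet L).Finite := Del.ofSet_finite hL
  unfold gL
  constructor
  · refine Finset.sum_nonneg fun v _ => ?_
    by_cases hv : v ∈ L
    · rw [if_neg (not_not.2 hv)]
    · rw [if_pos hv]
      exact h6.psi_nonneg _ v hA hv
  · have h1 : ∀ v ∈ U1 d, (if v ∉ L then psi (Del.ofSet L) v else 0) ≤ (1 : ℝ) := by
      intro v _
      by_cases hv : v ∈ L
      · rw [if_neg (not_not.2 hv)]
        exact zero_le_one
      · rw [if_pos hv]
        exact h6.psi_le _ v hA hv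
    have h2 := Finset.sum_le_sum h1
    rw [Finset.sum_const, nsmul_eq_mul, mul_one] at h2
    have h3 : ((U1 d).card : ℝ) ≤ 2 * d := by exact_mod_cast card_U1_le d
    refine le_trans ?_ h3
    convert h2

theorem gL_anti (h6 : Out6 d) {L L' : Set (V d)} (hL' : L'.Finite) (h : L ⊆ L') :
    gL L' ≤ gL L := by
  classical
  have hL : L.Finite := hL'.subset h
  have h1 : ∀ v ∈ U1 d, (if v ∉ L' then psi (Del.ofSet L') v else 0) ≤
      (if v ∉ L then psi (Del.ofSet L) v else 0 : ℝ) := by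
    intro v _
    by_cases hv : v ∈ L'
    · rw [if_neg (not_not.2 hv)]
      by_cases hv2 : v ∈ L
      · rw [if_neg (not_not.2 hv2)]
      · rw [if_pos hv2]
        exact h6.psi_nonneg _ v (Del.ofSet_finite hL) hv2
    · rw [if_pos hv, if_pos (fun hh => hv (h hh))]
      have h2 := h6.psi_anti hL.toFinset hL'.toFinset v
        (by
          intro x hx
          rw [Set.Finite.mem_toFinset] at hx ⊢
          exact h hx)
        (by rw [Set.Finite.mem_toFinset]; exact hv)
      unfold psiK at h2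
      rwa [Set.Finite.coe_toFinset, Set.Finite.coe_toFinset] at h2
  have h3 := Finset.sum_le_sum h1
  unfold gL
  convert h3

theorem gbar_nonneg (h5 : Out5 d) (h6 : Out6 d) (R : ℕ) : 0 ≤ gbar d R :=
  cloc_nonneg h5 h6 (Lb0_local R gL) fun O => (gL_bd h6 _ (Lb0_finite R O 0)).1

theorem gbar_anti (h5 : Out5 d) (h6 : Out6 d) : Antitone (gbar d) := by
  intro R R' h
  exact cloc_mono h5 h6 (Lb0_local R' gL) (Lb0_local R gL)
    fun O => gL_anti h6 (Lb0_finite R' O 0) (Lb0_mono h O 0)

theorem gbar_lim (h5 : Out5 d) (h6 : Out6 d) : Tendsto (gbar d) atTop (𝓝 (ginf d)) := by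
  have h1 : Tendsto (gbar d) atTop (𝓝 (⨅ R, gbar d R)) :=
    tendsto_atTop_ciInf (gbar_anti h5 h6) ⟨0, by
      rintro _ ⟨R, rfl⟩
      exact gbar_nonneg h5 h6 R⟩
  have h2 : ginf d = ⨅ R, gbar d R := h1.limUnder_eq
  rw [h2]
  exact h1

end Pool.Agent.PB.S8
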