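import Pool.Agent.PB.S8.Diff
import Pool.Agent.PB.S8.GL
import Pool.Agent.PB.S8.WSq

/-!
# PB S8-ExpLim (0.7 h, uses Diff, GL, NB (EW_W1), Out7.lim): 8.6 (field `explim` of Out8)

κ = max 0 (t gbar + η). |e^{-x} - e^{-y}| <= min(1, |x-y|) for x, y >= 0, max 0 is 1-Lipschitz and N >= 0:
|W - V| <= min(1, as t |Y - gbar N|) <= min (1, (2 a t) s |Y - gbar N|) eventually, V = 1 - exp(-(as κ) N). By min_diff
E|W - V|/sqrt s → 0. E V = Mr d (pc d) (as κ) (EW_W1 with s replaced by as κ > 0; κ = 0: V = 0).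
κ > 0: as κ → 0+, Mr(as κ)/sqrt s = Mr(as κ)/sqrt(as κ) * sqrt(as κ/s) → (1/sqrt b) sqrt(a κ) = sqrt(a κ/b).
W, V bounded measurable (measurable_Yf, measurable_Nc).
-/

set_option autoImplicit false
open MeasureTheory Filter Topology
open scoped ENNReal BigOperators

namespace Pool.Agent.PB.S8

open Pool.Agent.PB

variable {d : ℕ}

theorem integrable_bdd {f : Om d → ℝ} (hf : Measurable f) (C : ℝ) (h : ∀ ω, |f ω| ≤ C) :
    Integrable f (Pr d) :=
  Integrable.of_bound hf.aestronglyMeasurable C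
    (Filter.Eventually.of_forall fun ω => by rw [Real.norm_eq_abs]; exact h ω)

theorem exp_lip {x y : ℝ} (hx : 0 ≤ x) (hy : 0 ≤ y) :
    |(1 - Real.exp (-x)) - (1 - Real.exp (-y))| ≤ min 1 |x - y| := by
  have h1 : ∀ u v : ℝ, 0 ≤ u → u ≤ v → Real.exp (-u) - Real.exp (-v) ≤ min 1 (v - u) ∧
      0 ≤ Real.exp (-u) - Real.exp (-v) := by
    intro u v hu huv
    have e0 : Real.exp (-u) ≤ 1 := Real.exp_le_one_iff.2 (by linarith)
    have e1 : 0 < Real.exp (-v) := Real.exp_pos _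
    have e3 : 0 < Real.exp (-u) := Real.exp_pos _
    have e2 : Real.exp (-v) = Real.exp (-u) * Real.exp (-(v - u)) := by
      rw [← Real.exp_add]; congr 1; ring
    have e4 : 1 - (v - u) ≤ Real.exp (-(v - u)) := by
      have := Real.add_one_le_exp (-(v - u)); linarith
    have e5 : Real.exp (-v) ≤ Real.exp (-u) := Real.exp_le_exp.2 (by linarith)
    refine ⟨le_min (by linarith) ?_, by linarith⟩
    rw [e2]
    have e6 : Real.exp (-u) * (1 - Real.exp (-(v - u))) ≤ 1 * (v - u) :=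
      mul_le_mul e0 (by linarith) (by
        have : Real.exp (-(v - u)) ≤ 1 := Real.exp_le_one_iff.2 (by linarith)
        linarith) zero_le_one
    nlinarith
  rcases le_total x y with h | h
  · obtain ⟨a1, a2⟩ := h1 x y hx h
    have e : (1 - Real.exp (-x)) - (1 - Real.exp (-y)) = -(Real.exp (-x) - Real.exp (-y)) := by
      ring
    rw [e, abs_neg, abs_of_nonneg a2, abs_sub_comm x y, abs_of_nonneg (by linarith : 0 ≤ y - x)]
    exact a1
  · obtain ⟨a1, a2⟩ := h1 y x hy h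
    have e : (1 - Real.exp (-x)) - (1 - Real.exp (-y)) = Real.exp (-y) - Real.exp (-x) := by
      ring
    rw [e, abs_of_nonneg a2, abs_of_nonneg (by linarith : 0 ≤ x - y)]
    exact a1

theorem one_sub_exp_mem {x : ℝ} (hx : 0 ≤ x) : |1 - Real.exp (-x)| ≤ 1 := by
  have h1 : Real.exp (-x) ≤ 1 := Real.exp_le_one_iff.2 (by linarith)
  have h2 : 0 < Real.exp (-x) := Real.exp_pos _
  rw [abs_le]; constructor <;> linarith

theorem explim (h5 : Out5 d) (h6 : Out6 d) {b : ℝ} (h7 : Out7 d b) (R : ℕ) (a t η : ℝ)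
    (as : ℝ → ℝ) (ha : 0 < a) (ht : 0 ≤ t)
    (has : Tendsto (fun s => as s / s) (𝓝[>] 0) (𝓝 a)) (h0 : ∀ s, 0 ≤ as s) :
      Tendsto (fun s : ℝ => EW (Wf R gL (fun s N Y =>
        1 - Real.exp (-(as s * max 0 (t * Y + η * N))))) s (D0 : Del (V d)) 0 / Real.sqrt s)
        (𝓝[>] 0) (𝓝 (Real.sqrt (a * max 0 (t * gbar d R + η) / b))) := by
  set κ : ℝ := max 0 (t * gbar d R + η) with hκ
  have hκ0 : 0 ≤ κ := le_max_left _ _
  let Wv : ℝ → Om d → ℝ := fun s ω =>
    1 - Real.exp (-(as s * max 0 (t * Yf R gL (Oc ω) 0 + η * (Nc (Oc ω) (0 : V d) : ℝ))))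
  let Vv : ℝ → Om d → ℝ := fun s ω =>
    1 - Real.exp (-(as s * κ * (Nc (Oc ω) (0 : V d) : ℝ)))
  have hmY := measurable_Yf (d := d) R gL 0
  have hmN := measurable_Nc (d := d) 0
  have hWm : ∀ s, Measurable (Wv s) := fun s => by
    show Measurable fun ω : Om d =>
      1 - Real.exp (-(as s * max 0 (t * Yf R gL (Oc ω) 0 + η * (Nc (Oc ω) (0 : V d) : ℝ))))
    exact measurable_const.sub (Real.measurable_exp.comp
      ((measurable_const.mul (measurable_const.max
        ((measurable_const.mul hmY).add (measurable_const.mul hmN)))).neg))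
  have hVm : ∀ s, Measurable (Vv s) := fun s => by
    show Measurable fun ω : Om d => 1 - Real.exp (-(as s * κ * (Nc (Oc ω) (0 : V d) : ℝ)))
    exact measurable_const.sub (Real.measurable_exp.comp ((measurable_const.mul hmN).neg))
  have hN0 : ∀ ω : Om d, (0 : ℝ) ≤ (Nc (Oc ω) (0 : V d) : ℝ) := fun ω => Nat.cast_nonneg _
  have hWi : ∀ s, Integrable (Wv s) (Pr d) := fun s =>
    integrable_bdd (hWm s) 1 fun ω => one_sub_exp_mem (mul_nonneg (h0 s) (le_max_left _ _))
  have hVi : ∀ s, Integrable (Vv s) (Pr d) := fun s =>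
    integrable_bdd (hVm s) 1 fun ω => one_sub_exp_mem
      (mul_nonneg (mul_nonneg (h0 s) hκ0) (hN0 ω))
  have hW : ∀ s, EW (Wf R gL (fun s N Y =>
        1 - Real.exp (-(as s * max 0 (t * Y + η * N))))) s (D0 : Del (V d)) 0 =
        ∫ ω, Wv s ω ∂(Pr d) := by
    intro s
    unfold EW
    refine integral_congr_ae (Filter.Eventually.of_forall fun ω => ?_)
    show WA _ s D0 (Oc ω) 0 = Wv s ω
    rw [WA_D0]
    rfl
  -- the difference
  have hD := min_diff h5 h6 R gL (2 * d) (fun L hL _ => by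
    obtain ⟨h1, h2⟩ := gL_bd h6 L hL
    rw [abs_of_nonneg h1]
    exact h2) (2 * a * t) (by positivity)
  have hpos : ∀ᶠ s in 𝓝[>] (0 : ℝ), 0 < s := self_mem_nhdsWithin
  have hup : ∀ᶠ s in 𝓝[>] (0 : ℝ), as s ≤ 2 * a * s := by
    have h1 : ∀ᶠ s in 𝓝[>] (0 : ℝ), as s / s < 2 * a :=
      has.eventually_lt_const (by linarith)
    filter_upwards [h1, hpos] with s h2 h3
    rw [div_lt_iff₀ h3] at h2
    exact h2.le
  have hlow : ∀ᶠ s in 𝓝[>] (0 : ℝ), 0 < as s := by
    have h1 : ∀ᶠ s in 𝓝[>] (0 : ℝ), 0 < as s / s := has.eventually_const_lt ha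
    filter_upwards [h1, hpos] with s h2 h3
    by_contra hcon
    have h4 : as s / s ≤ 0 := div_nonpos_of_nonpos_of_nonneg (not_lt.1 hcon) h3.le
    linarith
  have hdiff : ∀ᶠ s in 𝓝[>] (0 : ℝ),
      |(∫ ω, Wv s ω ∂(Pr d)) / Real.sqrt s - (∫ ω, Vv s ω ∂(Pr d)) / Real.sqrt s| ≤
      (∫ ω : Om d, min 1 (2 * a * t * s *
        |Yf R gL (Oc ω) 0 - gbr R (gL (d := d)) * (Nc (Oc ω) (0 : V d) : ℝ)|) ∂(Pr d)) / Real.sqrt s := by
    filter_upwards [hup, hpos] with s h1 h2
    rw [← sub_div, abs_div, abs_of_nonneg (Real.sqrt_nonneg s)]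
    refine div_le_div_of_nonneg_right ?_ (Real.sqrt_nonneg s)
    rw [← integral_sub (hWi s) (hVi s)]
    refine (abs_integral_le_integral_abs).trans ?_
    refine integral_mono ((hWi s).sub (hVi s)).abs ?_ ?_
    · refine integrable_bdd ?_ 1 ?_
      · exact measurable_const.min (measurable_const.mul
          ((hmY.sub (measurable_const.mul hmN)).abs))
      · intro ω
        have e1 : 0 ≤ 2 * a * t * s *
          |Yf R gL (Oc ω) 0 - gbr R (gL (d := d)) * (Nc (Oc ω) (0 : V d) : ℝ)| :=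
          mul_nonneg (by positivity) (abs_nonneg _)
        rw [abs_of_nonneg (le_min zero_le_one e1)]
        exact min_le_left _ _
    · intro ω
      show |Wv s ω - Vv s ω| ≤ min 1 (2 * a * t * s *
        |Yf R gL (Oc ω) 0 - gbr R (gL (d := d)) * (Nc (Oc ω) (0 : V d) : ℝ)|)
      have e1 := exp_lip (x := as s * max 0 (t * Yf R gL (Oc ω) 0 +
          η * (Nc (Oc ω) (0 : V d) : ℝ))) (y := as s * κ * (Nc (Oc ω) (0 : V d) : ℝ))
          (mul_nonneg (h0 s) (le_max_left _ _)) (mul_nonneg (mul_nonneg (h0 s) hκ0) (hN0 ω))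
      refine e1.trans (min_le_min le_rfl ?_)
      have e2 : as s * κ * (Nc (Oc ω) (0 : V d) : ℝ) =
          as s * max 0 ((t * gbar d R + η) * (Nc (Oc ω) (0 : V d) : ℝ)) := by
        rw [mul_assoc, hκ, max_mul_of_nonneg _ _ (hN0 ω), zero_mul]
      rw [e2, ← mul_sub, abs_mul, abs_of_nonneg (h0 s)]
      have e3 : |max 0 (t * Yf R gL (Oc ω) 0 + η * (Nc (Oc ω) (0 : V d) : ℝ)) -
          max 0 ((t * gbar d R + η) * (Nc (Oc ω) (0 : V d) : ℝ))| ≤
          t * |Yf R gL (Oc ω) 0 - gbr R (gL (d := d)) * (Nc (Oc ω) (0 : V d) : ℝ)| := by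
        have e4 := abs_max_sub_max_le_abs (t * Yf R gL (Oc ω) 0 + η * (Nc (Oc ω) (0 : V d) : ℝ))
          ((t * gbar d R + η) * (Nc (Oc ω) (0 : V d) : ℝ)) 0
        rw [max_comm, max_comm 0 ((t * gbar d R + η) * (Nc (Oc ω) (0 : V d) : ℝ))]
        refine e4.trans (le_of_eq ?_)
        rw [← abs_of_nonneg ht, ← abs_mul, abs_of_nonneg ht]
        congr 1
        unfold gbar
        ring
      have e5 : 0 ≤ |Yf R gL (Oc ω) 0 - gbr R (gL (d := d)) * (Nc (Oc ω) (0 : V d) : ℝ)| := abs_nonneg _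
      calc as s * _ ≤ (2 * a * s) *
            (t * |Yf R gL (Oc ω) 0 - gbr R (gL (d := d)) * (Nc (Oc ω) (0 : V d) : ℝ)|) :=
            mul_le_mul h1 e3 (abs_nonneg _) (by positivity)
        _ = _ := by ring
  have hdiff0 : Tendsto (fun s => (∫ ω, Wv s ω ∂(Pr d)) / Real.sqrt s -
      (∫ ω, Vv s ω ∂(Pr d)) / Real.sqrt s) (𝓝[>] 0) (𝓝 0) :=
    squeeze_zero_norm' (by
      filter_upwards [hdiff] with s h1
      rw [Real.norm_eq_abs]
      exact h1) hD
  -- the main term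
  have hV : Tendsto (fun s => (∫ ω, Vv s ω ∂(Pr d)) / Real.sqrt s) (𝓝[>] 0)
      (𝓝 (Real.sqrt (a * κ / b))) := by
    rcases hκ0.eq_or_lt with h | h
    · have e1 : ∀ s, (∫ ω, Vv s ω ∂(Pr d)) / Real.sqrt s = 0 := by
        intro s
        have e2 : ∀ ω, Vv s ω = 0 := by
          intro ω
          show 1 - Real.exp (-(as s * κ * (Nc (Oc ω) (0 : V d) : ℝ))) = 0
          rw [← h]; simp
        simp only [e2, integral_zero, zero_div]
      simp only [e1]
      rw [← h]
      simp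
    · have e0 : Tendsto (fun s => as s * κ) (𝓝[>] 0) (𝓝[>] 0) := by
        refine tendsto_nhdsWithin_iff.2 ⟨?_, ?_⟩
        · have f1 : Tendsto (fun s : ℝ => s) (𝓝[>] 0) (𝓝 0) := tendsto_id.mono_left nhdsWithin_le_nhds
          have f2 : Tendsto (fun s : ℝ => as s / s * s * κ) (𝓝[>] 0) (𝓝 (a * 0 * κ)) :=
            (has.mul f1).mul_const κ
          rw [mul_zero, zero_mul] at f2
          refine f2.congr' ?_
          filter_upwards [hpos] with s hs
          rw [div_mul_cancel₀ _ hs.ne']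
        · filter_upwards [hlow] with s hs
          exact mul_pos hs h
      have e1 : Tendsto (fun s => Mr d (pc d) (as s * κ) / Real.sqrt (as s * κ)) (𝓝[>] 0)
          (𝓝 (1 / Real.sqrt b)) := h7.lim.comp e0
      have e2 : Tendsto (fun s => Real.sqrt (as s / s * κ)) (𝓝[>] 0) (𝓝 (Real.sqrt (a * κ))) :=
        (Real.continuous_sqrt.tendsto _).comp (has.mul_const κ)
      have e3 := e1.mul e2
      have e4 : 1 / Real.sqrt b * Real.sqrt (a * κ) = Real.sqrt (a * κ / b) := by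
        rw [Real.sqrt_div (by positivity)]
        ring
      rw [e4] at e3
      refine e3.congr' ?_
      filter_upwards [hpos, hlow] with s hs hs2
      have e5 : ∫ ω, Vv s ω ∂(Pr d) = Mr d (pc d) (as s * κ) := by
        rw [← EW_W1 h5 (mul_pos hs2 h)]
        unfold EW
        refine integral_congr_ae (Filter.Eventually.of_forall fun ω => ?_)
        show Vv s ω = WA W1 (as s * κ) D0 (Oc ω) 0
        rw [WA_D0]
        rfl
      rw [e5]
      have e6 : Real.sqrt (as s / s * κ) = Real.sqrt (as s * κ) / Real.sqrt s := by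
        rw [← Real.sqrt_div (mul_pos hs2 h).le]
        congr 1
        ring
      rw [e6]
      have e7 : Real.sqrt (as s * κ) ≠ 0 := (Real.sqrt_pos.2 (mul_pos hs2 h)).ne'
      field_simp
  have hfin := hdiff0.add hV
  rw [zero_add] at hfin
  refine hfin.congr fun s => ?_
  rw [hW s]
  ring

end Pool.Agent.PB.S8
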