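import Pool.Agent.PB.S8.Sq

/-!
# PB S8-Lln (0.4 h, uses Sq): 8.2 (field `lln` of Out8)

On the event: η²N² < (Y-γN)², a <= sN <= b', so s²(Y-γN)² e^{-sN} >= η² a² e^{-b'}: Markov (or `measure` of the event times the constant
<= the integral, `mul_meas_ge_le_integral_of_nonneg`), then sq_small divided by η² a² e^{-b'}.
-/

set_option autoImplicit false
open MeasureTheory Filter Topology
open scoped ENNReal BigOperators

namespace Pool.Agent.PB.S8

open Pool.Agent.PB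

variable {d : ℕ}

private theorem lln_x2_exp {x : ℝ} (hx : 0 ≤ x) : x ^ 2 * Real.exp (-x) ≤ 4 := by
  have h1 := Real.add_one_le_exp (x / 2)
  have h2 : Real.exp x = Real.exp (x / 2) ^ 2 := by
    rw [← Real.exp_nat_mul]; congr 1; push_cast; ring
  have h3 : x ^ 2 / 4 ≤ Real.exp x := by
    rw [h2]; nlinarith
  have h4 : Real.exp x * Real.exp (-x) = 1 := by rw [← Real.exp_add]; simp
  have h5 : 0 < Real.exp (-x) := Real.exp_pos _
  nlinarith

/-- integrability of the quadratic functional -/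
theorem sq_integrable (R : ℕ) (g : Set (V d) → ℝ) (c γ : ℝ)
    (hg : ∀ L : Set (V d), L.Finite → (0 : V d) ∈ L → |g L| ≤ c) {s : ℝ} (hs : 0 < s) :
    Integrable (fun ω : Om d => s ^ 2 *
        (Yf R g (Oc ω) 0 - γ * (Nc (Oc ω) (0 : V d) : ℝ)) ^ 2 *
          Real.exp (-(s * (Nc (Oc ω) (0 : V d) : ℝ)))) (Pr d) := by
  have mN := measurable_Nc (d := d) 0
  have mY := measurable_Yf (d := d) R g 0
  have hm : Measurable (fun ω : Om d => s ^ 2 *
        (Yf R g (Oc ω) 0 - γ * (Nc (Oc ω) (0 : V d) : ℝ)) ^ 2 *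
          Real.exp (-(s * (Nc (Oc ω) (0 : V d) : ℝ)))) :=
    (((mY.sub (mN.const_mul γ)).pow_const 2).const_mul (s ^ 2)).mul
      (Real.measurable_exp.comp (mN.const_mul s).neg)
  refine Integrable.of_bound hm.aestronglyMeasurable (4 * (c + |γ|) ^ 2)
    (Filter.Eventually.of_forall fun ω => ?_)
  have hY := Yf_bound (R := R) hg (Oc ω) 0
  set N : ℝ := (Nc (Oc ω) (0 : V d) : ℝ) with hN
  set Y : ℝ := Yf R g (Oc ω) 0 with hYd
  have hN0 : 0 ≤ N := Nat.cast_nonneg _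
  have hc : 0 ≤ c := (abs_nonneg _).trans (hg {0} (Set.finite_singleton _) rfl)
  have h1 : |Y - γ * N| ≤ (c + |γ|) * N := by
    have : |Y - γ * N| ≤ |Y| + |γ * N| := abs_sub _ _
    rw [abs_mul, abs_of_nonneg hN0] at this
    linarith
  have h2 : (Y - γ * N) ^ 2 ≤ ((c + |γ|) * N) ^ 2 := by
    rw [← sq_abs (Y - γ * N)]
    exact pow_le_pow_left₀ (abs_nonneg _) h1 2
  have h3 := lln_x2_exp (x := s * N) (by positivity)
  have h4 : 0 < Real.exp (-(s * N)) := Real.exp_pos _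
  have h5 : 0 ≤ s ^ 2 * (Y - γ * N) ^ 2 * Real.exp (-(s * N)) := by positivity
  rw [Real.norm_eq_abs, abs_of_nonneg h5]
  calc s ^ 2 * (Y - γ * N) ^ 2 * Real.exp (-(s * N))
      ≤ s ^ 2 * ((c + |γ|) * N) ^ 2 * Real.exp (-(s * N)) :=
        mul_le_mul_of_nonneg_right (mul_le_mul_of_nonneg_left h2 (by positivity)) h4.le
    _ = (c + |γ|) ^ 2 * ((s * N) ^ 2 * Real.exp (-(s * N))) := by ring
    _ ≤ (c + |γ|) ^ 2 * 4 := mul_le_mul_of_nonneg_left h3 (by positivity)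
    _ = 4 * (c + |γ|) ^ 2 := by ring

theorem lln (h5 : Out5 d) (h6 : Out6 d) (R : ℕ) (g : Set (V d) → ℝ) (c : ℝ)
    (hg : ∀ L : Set (V d), L.Finite → (0 : V d) ∈ L → |g L| ≤ c) (a b' η : ℝ) (ha : 0 < a)
    (hab : a < b') (hη : 0 < η) :
    Tendsto (fun s : ℝ => (Pr d {ω : Om d | a ≤ s * (Nc (Oc ω) (0 : V d) : ℝ) ∧
        s * (Nc (Oc ω) (0 : V d) : ℝ) ≤ b' ∧
        η * (Nc (Oc ω) (0 : V d) : ℝ) <
          |Yf R g (Oc ω) 0 - gbr R g * (Nc (Oc ω) (0 : V d) : ℝ)|}).toReal / Real.sqrt s)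
        (𝓝[>] 0) (𝓝 0) := by
  have hsq := sq_small h5 h6 R g c hg
  set κ : ℝ := η ^ 2 * a ^ 2 * Real.exp (-b') with hκd
  have hκ : 0 < κ := by positivity
  have hlim := hsq.const_mul (1 / κ)
  rw [mul_zero] at hlim
  refine squeeze_zero' ?_ ?_ hlim
  · filter_upwards [self_mem_nhdsWithin] with s hs
    exact div_nonneg ENNReal.toReal_nonneg (Real.sqrt_nonneg _)
  · filter_upwards [self_mem_nhdsWithin] with s hs
    have hs0 : 0 < s := hs
    have hi := sq_integrable R g c (gbr R g) hg hs0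
    have h1 := mul_meas_ge_le_integral_of_nonneg (μ := Pr d)
      (Filter.Eventually.of_forall fun ω : Om d => (show (0 : ℝ) ≤ s ^ 2 *
        (Yf R g (Oc ω) 0 - gbr R g * (Nc (Oc ω) (0 : V d) : ℝ)) ^ 2 *
          Real.exp (-(s * (Nc (Oc ω) (0 : V d) : ℝ))) by positivity)) hi κ
    have h2 : (Pr d {ω : Om d | a ≤ s * (Nc (Oc ω) (0 : V d) : ℝ) ∧
        s * (Nc (Oc ω) (0 : V d) : ℝ) ≤ b' ∧
        η * (Nc (Oc ω) (0 : V d) : ℝ) <
          |Yf R g (Oc ω) 0 - gbr R g * (Nc (Oc ω) (0 : V d) : ℝ)|}).toReal ≤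
        (Pr d).real {ω : Om d | κ ≤ s ^ 2 *
        (Yf R g (Oc ω) 0 - gbr R g * (Nc (Oc ω) (0 : V d) : ℝ)) ^ 2 *
          Real.exp (-(s * (Nc (Oc ω) (0 : V d) : ℝ)))} := by
      refine ENNReal.toReal_mono (measure_ne_top _ _) (measure_mono ?_)
      rintro ω ⟨e1, e2, e3⟩
      show κ ≤ _
      set N : ℝ := (Nc (Oc ω) (0 : V d) : ℝ) with hN
      set Z : ℝ := Yf R g (Oc ω) 0 - gbr R g * N with hZ
      have hN0 : 0 ≤ N := Nat.cast_nonneg _
      have f1 : (η * N) ^ 2 ≤ Z ^ 2 := by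
        rw [← sq_abs Z]
        exact pow_le_pow_left₀ (by positivity) e3.le 2
      have f2 : a ^ 2 ≤ (s * N) ^ 2 := pow_le_pow_left₀ ha.le e1 2
      have f3 : Real.exp (-b') ≤ Real.exp (-(s * N)) := Real.exp_le_exp.2 (by linarith)
      have f4 : η ^ 2 * a ^ 2 ≤ s ^ 2 * Z ^ 2 := by
        calc η ^ 2 * a ^ 2 ≤ η ^ 2 * (s * N) ^ 2 := mul_le_mul_of_nonneg_left f2 (by positivity)
          _ = s ^ 2 * (η * N) ^ 2 := by ring
          _ ≤ s ^ 2 * Z ^ 2 := mul_le_mul_of_nonneg_left f1 (by positivity)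
      rw [hκd]
      exact mul_le_mul f4 f3 (Real.exp_pos _).le (by positivity)
    have h3 : (Pr d {ω : Om d | a ≤ s * (Nc (Oc ω) (0 : V d) : ℝ) ∧
        s * (Nc (Oc ω) (0 : V d) : ℝ) ≤ b' ∧
        η * (Nc (Oc ω) (0 : V d) : ℝ) <
          |Yf R g (Oc ω) 0 - gbr R g * (Nc (Oc ω) (0 : V d) : ℝ)|}).toReal ≤
        1 / κ * ∫ ω : Om d, s ^ 2 *
        (Yf R g (Oc ω) 0 - gbr R g * (Nc (Oc ω) (0 : V d) : ℝ)) ^ 2 *
          Real.exp (-(s * (Nc (Oc ω) (0 : V d) : ℝ))) ∂(Pr d) := by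
      refine h2.trans ?_
      rw [one_div, ← div_eq_inv_mul, le_div_iff₀ hκ, mul_comm]
      exact h1
    rw [← mul_div_assoc]
    exact div_le_div_of_nonneg_right h3 (Real.sqrt_nonneg _)

end Pool.Agent.PB.S8
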