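import Pool.Agent.PB.S8.Base
import Pool.Agent.PB.Meas
import Pool.Agent.PB.P.Loc
import Pool.Agent.PB.Mix.FunB

/-!
# PB S8-MeasL (0.7 h, uses Base, Meas, Link): measurability of functions of a finite cluster

A function F of the edge set which depends only on the cluster of y and the status of the edges touching it (if the cluster
is finite) and is constant on edge sets with infinite cluster gives a measurable function of ω.
Proof: for O = A.rem (opn p ω) ⊆ (lat d).edgeSet, the cluster K of y finite: the set of lattice edges touching K is finite.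
So {Cl O y = K, O ∩ touch K = E} for K : Finset (V d), E : Finset (Sym2 (V d)) is a countable partition of {cluster finite}
into measurable sets (MVS.eq_set, finite intersections over the finitely many lattice edges touching K), F is constant on
every piece (compare with one element of the piece, or with O' = E). On {cluster infinite} F is constant.
`measurable_to_countable`-like argument: F = piecewise constant on a countable measurable partition (e.g. preimage of a set S
is the union of the pieces where the value is in S).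
-/

set_option autoImplicit false
open MeasureTheory Filter Topology
open scoped ENNReal BigOperators

namespace Pool.Agent.PB.S8

open Pool.Agent.PB

variable {d : ℕ}

theorem measurable_local {β : Type*} [MeasurableSpace β] (F : Set (Sym2 (V d)) → β) (y : V d)
    (hloc : ∀ O O' : Set (Sym2 (V d)), (Cl O y).Finite →
      (∀ e ∈ touch (Cl O y), (e ∈ O ↔ e ∈ O')) → F O = F O')
    (hinf : ∀ O O' : Set (Sym2 (V d)), ¬ (Cl O y).Finite → ¬ (Cl O' y).Finite → F O = F O')
    (p : ℝ) (A : Del (V d)) : Measurable (fun ω : Om d => F (A.rem (opn p ω))) := by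
  by_cases h : ∃ O : Set (Sym2 (V d)), ¬ (Cl O y).Finite
  · obtain ⟨O₀, hO₀⟩ := h
    exact measurable_of_cluster A p y F (F O₀) hloc fun O hO => hinf O O₀ hO hO₀
  · exact measurable_of_cluster A p y F (F ∅) hloc fun O hO => absurd ⟨O, hO⟩ h

theorem Cl_local {O O' : Set (Sym2 (V d))} {y : V d}
    (h : ∀ e ∈ touch (Cl O y), (e ∈ O ↔ e ∈ O')) : Cl O' y = Cl O y := by
  have h1 : O ∩ touch (Cl O y) = O' ∩ touch (Cl O y) := by
    ext e
    constructor
    · rintro ⟨h2, h3⟩; exact ⟨(h e h3).1 h2, h3⟩
    · rintro ⟨h2, h3⟩; exact ⟨(h e h3).2 h2, h3⟩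
  exact (Cl_eq_congr h1).1 rfl

theorem Nc_local {O O' : Set (Sym2 (V d))} {y : V d}
    (h : ∀ e ∈ touch (Cl O y), (e ∈ O ↔ e ∈ O')) : Nc O' y = Nc O y := by
  unfold Nc
  rw [Cl_local h]

theorem Lb_local {O O' : Set (Sym2 (V d))} {x y : V d} (R : ℕ) (hx : x ∈ Cl O y)
    (h : ∀ e ∈ touch (Cl O y), (e ∈ O ↔ e ∈ O')) : Lb R O' x = Lb R O x := by
  unfold Lb
  refine Cl_local ?_
  rintro e ⟨v, hve, hv⟩
  have h1 : v ∈ Cl O y := by
    rw [← Cl_eq_of_mem hx]
    exact Cl_mono Set.inter_subset_left x hv
  have h2 := h e ⟨v, hve, h1⟩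
  rw [Set.mem_inter_iff, Set.mem_inter_iff, h2]

theorem Yf_local {O O' : Set (Sym2 (V d))} {y : V d} (R : ℕ) (g : Set (V d) → ℝ)
    (h : ∀ e ∈ touch (Cl O y), (e ∈ O ↔ e ∈ O')) : Yf R g O' y = Yf R g O y := by
  have hc := Cl_local h
  by_cases hf : (Cl O y).Finite
  · have hf' : (Cl O' y).Finite := by rw [hc]; exact hf
    rw [Yf_of_finite R g hf, Yf_of_finite R g hf']
    refine Finset.sum_congr ?_ ?_
    · ext w
      rw [Set.Finite.mem_toFinset, Set.Finite.mem_toFinset, hc]
    · intro x hx
      rw [Set.Finite.mem_toFinset] at hx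
      unfold Lb0
      rw [Lb_local R hx h]
  · have hf' : ¬ (Cl O' y).Finite := by rw [hc]; exact hf
    rw [Yf_of_infinite R g hf, Yf_of_infinite R g hf']

theorem measurable_Nc (y : V d) : Measurable (fun ω : Om d => (Nc (Oc ω) y : ℝ)) := by
  have h := measurable_local (d := d) (fun O => (Nc O y : ℝ)) y
    (fun O O' _ h => by simp only [Nc_local h])
    (fun O O' h h' => by simp only [Nc_of_infinite h, Nc_of_infinite h']) (pc d) D0
  simpa only [rem_D0, Oc] using h

theorem measurable_Yf (R : ℕ) (g : Set (V d) → ℝ) (y : V d) :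
    Measurable (fun ω : Om d => Yf R g (Oc ω) y) := by
  have h := measurable_local (d := d) (fun O => Yf R g O y) y
    (fun O O' _ h => by simp only [Yf_local R g h])
    (fun O O' h h' => by simp only [Yf_of_infinite R g h, Yf_of_infinite R g h']) (pc d) D0
  simpa only [rem_D0, Oc] using h

theorem measurable_Lb0 (R : ℕ) (g : Set (V d) → ℝ) (y : V d) :
    Measurable (fun ω : Om d => g (Lb0 R (Oc ω) y)) := by
  classical
  have h := measurable_local (d := d)
    (fun O => if (Cl O y).Finite then g (Lb0 R O y) else 0) y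
    (fun O O' hf h => by
      have h1 : (Cl O' y).Finite := by rw [Cl_local h]; exact hf
      rw [if_pos hf, if_pos h1]
      unfold Lb0
      rw [Lb_local R (self_mem_Cl O y) h])
    (fun O O' h h' => by rw [if_neg h, if_neg h']) (pc d) (Del.ofSet (bx R y)ᶜ)
  have h2 : ∀ ω : Om d, (Del.ofSet (bx R y)ᶜ).rem (opn (pc d) ω) = Oc ω ∩ ins (bx R y) := by
    intro ω
    ext e
    simp [Del.rem, Del.ofSet, ins, Oc]
  have h3 : (fun ω : Om d => g (Lb0 R (Oc ω) y)) = fun ω : Om d =>
      if (Cl ((Del.ofSet (bx R y)ᶜ).rem (opn (pc d) ω)) y).Finite then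
        g (Lb0 R ((Del.ofSet (bx R y)ᶜ).rem (opn (pc d) ω)) y) else 0 := by
    funext ω
    rw [h2 ω]
    have h4 : (Cl (Oc ω ∩ ins (bx R y)) y).Finite := Lb_finite R (Oc ω) y
    rw [if_pos h4]
    have h5 : Lb R (Oc ω ∩ ins (bx R y)) y = Lb R (Oc ω) y := by
      unfold Lb
      rw [Set.inter_assoc, Set.inter_self]
    unfold Lb0
    rw [h5]
  rw [h3]
  exact h

end Pool.Agent.PB.S8
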