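import Pool.Agent.PB.S8.MeasL
import Pool.Agent.PB.P.Reroot

/-!
# PB S8-ReInt (0.8 h, uses Base, MeasL, P/Act (lintegral_act, trI), P/Reroot if landed): re-rooting for functionals of the edge set

`sumCl O y f` = sum of f over the (finite) cluster. F : Set (Sym2 V) → V → β covariant: F (shE z O) (x+z) = F O x.
(1) `reroot_lint`: ∫⁻ Σ_{x∈C(0)} F (Oc ω) x = ∫⁻ N F (Oc ω) 0 (F ≥ 0 in ENNReal, theta(p_c) = 0 not needed: clusters finite part).
  Mass transport: m(x,y)(ω) = 1{y ∈ C(x), C(x) finite} F (Oc ω) y; Σ_y m(0,y) versus Σ_y m(y,0): ∫⁻ m(0,y) = ∫⁻ m(-y,0) by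
  translation (Oc (act (trI a) ω) = shE (-a) (Oc ω) up to sign; Lebesgue/ENNReal.tsum over y, `lintegral_tsum`), and m(y,0) = 1{y∈C(0)} F(Oc,0).
(2) `reroot_real`: for real F with N |F(Oc ω, 0)| integrable: apply (1) to the positive and negative parts
  (ofReal (F), ofReal (-F)); `integral_eq_lintegral_pos_part_sub_lintegral_neg_part`.
-/

set_option autoImplicit false
open MeasureTheory Filter Topology
open scoped ENNReal BigOperators
namespace Pool.Agent.PB.S8

open Pool.Agent.PB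

variable {d : ℕ}

/-- sum over the cluster (0 if it is infinite) -/
noncomputable def sumCl {β : Type*} [AddCommMonoid β] (O : Set (Sym2 (V d))) (y : V d)
    (f : V d → β) : β := by
  classical exact if h : (Cl O y).Finite then ∑ x ∈ h.toFinset, f x else 0

theorem Yf_eq_sumCl (R : ℕ) (g : Set (V d) → ℝ) (O : Set (Sym2 (V d))) (y : V d) :
    Yf R g O y = sumCl O y (fun x => g (Lb0 R O x)) := rfl

/-- translation of the critical edge set -/
theorem Oc_act (a : V d) (ω : Om d) : Oc (act (trI a) ω) = shE (-a) (Oc ω) := by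
  unfold Oc
  rw [opn_act (trI_aut a)]
  ext e
  constructor
  · intro he
    refine ⟨Sym2.map (trI a) e, he, ?_⟩
    rw [Sym2.map_map]
    have : ((fun x : V d => x + -a) ∘ (trI a : V d → V d)) = id := by
      funext x
      simp [trI_apply]
    rw [this, Sym2.map_id]
    rfl
  · rintro ⟨f, hf, rfl⟩
    show Sym2.map (trI a) (Sym2.map (fun x => x + -a) f) ∈ opn (pc d) ω
    rw [Sym2.map_map]
    have : ((trI a : V d → V d) ∘ fun x : V d => x + -a) = id := by
      funext x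
      simp [trI_apply]
    rw [this, Sym2.map_id]
    exact hf

theorem sumCl_eq_indicator (O : Set (Sym2 (V d))) (y : V d) (f : V d → ℝ≥0∞)
    (h : (Cl O y).Finite) : sumCl O y f = ∑' x, (Cl O y).indicator f x := by
  classical
  unfold sumCl
  rw [dif_pos h, tsum_eq_sum (s := h.toFinset)]
  · refine Finset.sum_congr rfl fun x hx => ?_
    rw [Set.indicator_of_mem (h.mem_toFinset.1 hx)]
  · intro x hx
    rw [Set.indicator_of_notMem]
    exact fun h2 => hx (h.mem_toFinset.2 h2)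

theorem sumCl_of_inf {β : Type*} [AddCommMonoid β] (O : Set (Sym2 (V d))) (y : V d) (f : V d → β)
    (h : ¬ (Cl O y).Finite) : sumCl O y f = 0 := by
  classical
  unfold sumCl
  rw [dif_neg h]

theorem measurable_sumCl (F : Set (Sym2 (V d)) → V d → ℝ≥0∞)
    (hm : ∀ x, Measurable (fun ω : Om d => F (Oc ω) x)) :
    Measurable (fun ω : Om d => sumCl (Oc ω) (0 : V d) (fun x => F (Oc ω) x)) := by
  have hfin : MeasurableSet {ω : Om d | (Cl (Oc ω) (0 : V d)).Finite} :=
    MVS.finite ((opn_MES (pc d)).cl 0)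
  have h1 : (fun ω : Om d => sumCl (Oc ω) (0 : V d) (fun x => F (Oc ω) x)) =
      {ω : Om d | (Cl (Oc ω) (0 : V d)).Finite}.indicator
        (fun ω => ∑' x, {ω : Om d | x ∈ Cl (Oc ω) (0 : V d)}.indicator
          (fun ω => F (Oc ω) x) ω) := by
    funext ω
    by_cases h : (Cl (Oc ω) (0 : V d)).Finite
    · rw [Set.indicator_of_mem (by exact h), sumCl_eq_indicator _ _ _ h]
      rfl
    · rw [Set.indicator_of_notMem (by exact h), sumCl_of_inf _ _ _ h]
  rw [h1]
  refine Measurable.indicator (Measurable.tsum fun x => ?_) hfin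
  exact (hm x).indicator ((opn_MES (pc d)).cl 0 x)

theorem reroot_lint (F : Set (Sym2 (V d)) → V d → ℝ≥0∞)
    (hcov : ∀ O x z, F (shE z O) (x + z) = F O x)
    (hm : ∀ x, Measurable (fun ω : Om d => F (Oc ω) x)) :
    ∫⁻ ω : Om d, sumCl (Oc ω) (0 : V d) (fun x => F (Oc ω) x) ∂(Pr d) =
      ∫⁻ ω : Om d, (Nc (Oc ω) (0 : V d) : ℝ≥0∞) * F (Oc ω) 0 ∂(Pr d) := by
  have hfin : MeasurableSet {ω : Om d | (Cl (Oc ω) (0 : V d)).Finite} :=
    MVS.finite ((opn_MES (pc d)).cl 0)
  have h := reroot_fin (d := d) (pc d) (F := fun x ω => F (Oc ω) x) hm (fun a x ω => by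
    show F (Oc (act (trI a) ω)) x = F (Oc ω) (x + a)
    rw [Oc_act]
    have := hcov (Oc ω) (x + a) (-a)
    rw [add_neg_cancel_right] at this
    exact this)
  have h2 : ∀ ω : Om d, sumCl (Oc ω) (0 : V d) (fun x => F (Oc ω) x) =
      {ω : Om d | (Cl (Oc ω) (0 : V d)).Finite}.indicator (fun ω =>
        ∑' x, (Cl (Oc ω) (0 : V d)).indicator (fun x => F (Oc ω) x) x) ω := by
    intro ω
    by_cases h : (Cl (Oc ω) (0 : V d)).Finite
    · rw [Set.indicator_of_mem (by exact h), sumCl_eq_indicator _ _ _ h]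
    · rw [Set.indicator_of_notMem (by exact h), sumCl_of_inf _ _ _ h]
  have h3 : ∀ ω : Om d, (Nc (Oc ω) (0 : V d) : ℝ≥0∞) * F (Oc ω) 0 =
      {ω : Om d | (Cl (Oc ω) (0 : V d)).Finite}.indicator (fun ω =>
        (Nc (Oc ω) (0 : V d) : ℝ≥0∞) * F (Oc ω) 0) ω := by
    intro ω
    by_cases h : (Cl (Oc ω) (0 : V d)).Finite
    · rw [Set.indicator_of_mem (by exact h)]
    · rw [Set.indicator_of_notMem (by exact h)]
      have : Nc (Oc ω) (0 : V d) = 0 := Set.Infinite.ncard h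
      rw [this, Nat.cast_zero, zero_mul]
  rw [lintegral_congr h2, lintegral_congr h3, lintegral_indicator hfin, lintegral_indicator hfin]
  exact h

theorem real_pos_neg (a : ℝ) :
    a = (ENNReal.ofReal a).toReal - (ENNReal.ofReal (-a)).toReal := by
  rcases le_total a 0 with hx | hx
  · rw [ENNReal.ofReal_of_nonpos hx, ENNReal.toReal_ofReal (by linarith)]
    simp
  · rw [ENNReal.ofReal_of_nonpos (by linarith : -a ≤ 0), ENNReal.toReal_ofReal hx]
    simp

theorem reroot_real (F : Set (Sym2 (V d)) → V d → ℝ)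
    (hcov : ∀ O x z, F (shE z O) (x + z) = F O x)
    (hm : ∀ x, Measurable (fun ω : Om d => F (Oc ω) x))
    (hi : Integrable (fun ω : Om d => (Nc (Oc ω) (0 : V d) : ℝ) * F (Oc ω) 0) (Pr d)) :
    ∫ ω : Om d, sumCl (Oc ω) (0 : V d) (fun x => F (Oc ω) x) ∂(Pr d) =
      ∫ ω : Om d, (Nc (Oc ω) (0 : V d) : ℝ) * F (Oc ω) 0 ∂(Pr d) := by
  classical
  let G : Bool → Set (Sym2 (V d)) → V d → ℝ≥0∞ := fun b O x =>
    ENNReal.ofReal (if b then F O x else - F O x)
  have hG : ∀ b, ∫⁻ ω : Om d, sumCl (Oc ω) (0 : V d) (fun x => G b (Oc ω) x) ∂(Pr d) =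
      ∫⁻ ω : Om d, (Nc (Oc ω) (0 : V d) : ℝ≥0∞) * G b (Oc ω) 0 ∂(Pr d) := by
    intro b
    refine reroot_lint (G b) (fun O x z => ?_) (fun x => ?_)
    · simp only [G, hcov]
    · refine ENNReal.measurable_ofReal.comp ?_
      cases b
      · exact (hm x).neg
      · exact hm x
  have hGm : ∀ b x, Measurable (fun ω : Om d => G b (Oc ω) x) := by
    intro b x
    refine ENNReal.measurable_ofReal.comp ?_
    cases b
    · exact (hm x).neg
    · exact hm x
  have hNm : Measurable (fun ω : Om d => (Nc (Oc ω) (0 : V d) : ℝ≥0∞)) := by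
    have h1 : (fun ω : Om d => (Nc (Oc ω) (0 : V d) : ℝ≥0∞)) =
        (fun n : ℕ∞ => ((n.toNat : ℕ) : ℝ≥0∞)) ∘ fun ω : Om d => (Cl (Oc ω) (0 : V d)).encard := rfl
    rw [h1]
    exact (measurable_of_countable _).comp (MVS.encard ((opn_MES (pc d)).cl 0))
  have hfin : ∀ b, ∫⁻ ω : Om d, (Nc (Oc ω) (0 : V d) : ℝ≥0∞) * G b (Oc ω) 0 ∂(Pr d) ≠ ⊤ := by
    intro b
    have h1 := hi.2
    rw [hasFiniteIntegral_iff_enorm] at h1
    refine ne_top_of_le_ne_top h1.ne (lintegral_mono fun ω => ?_)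
    rw [← ofReal_norm, Real.norm_eq_abs, abs_mul, Nat.abs_cast,
      ENNReal.ofReal_mul (Nat.cast_nonneg _), ENNReal.ofReal_natCast]
    refine mul_le_mul' le_rfl (ENNReal.ofReal_le_ofReal ?_)
    cases b
    · exact neg_le_abs _
    · exact le_abs_self _
  have hS : ∀ b, Integrable (fun ω : Om d =>
      (sumCl (Oc ω) (0 : V d) (fun x => G b (Oc ω) x)).toReal) (Pr d) := fun b =>
    integrable_toReal_of_lintegral_ne_top (measurable_sumCl (G b) (hGm b)).aemeasurable
      (by rw [hG b]; exact hfin b)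
  have hN : ∀ b, Integrable (fun ω : Om d =>
      ((Nc (Oc ω) (0 : V d) : ℝ≥0∞) * G b (Oc ω) 0).toReal) (Pr d) := fun b =>
    integrable_toReal_of_lintegral_ne_top (hNm.mul (hGm b 0)).aemeasurable (hfin b)
  have e1 : ∀ ω : Om d, sumCl (Oc ω) (0 : V d) (fun x => F (Oc ω) x) =
      (sumCl (Oc ω) (0 : V d) (fun x => G true (Oc ω) x)).toReal -
        (sumCl (Oc ω) (0 : V d) (fun x => G false (Oc ω) x)).toReal := by
    intro ω
    by_cases h : (Cl (Oc ω) (0 : V d)).Finite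
    · unfold sumCl
      rw [dif_pos h, dif_pos h, dif_pos h, ENNReal.toReal_sum (fun x _ => ENNReal.ofReal_ne_top),
        ENNReal.toReal_sum (fun x _ => ENNReal.ofReal_ne_top), ← Finset.sum_sub_distrib]
      exact Finset.sum_congr rfl fun x _ => real_pos_neg _
    · rw [sumCl_of_inf _ _ _ h, sumCl_of_inf _ _ _ h, sumCl_of_inf _ _ _ h]
      simp
  have e2 : ∀ ω : Om d, (Nc (Oc ω) (0 : V d) : ℝ) * F (Oc ω) 0 =
      ((Nc (Oc ω) (0 : V d) : ℝ≥0∞) * G true (Oc ω) 0).toReal -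
        ((Nc (Oc ω) (0 : V d) : ℝ≥0∞) * G false (Oc ω) 0).toReal := by
    intro ω
    rw [ENNReal.toReal_mul, ENNReal.toReal_mul, ENNReal.toReal_natCast, ← mul_sub]
    congr 1
    exact real_pos_neg _
  rw [integral_congr_ae (Filter.Eventually.of_forall e1),
    integral_congr_ae (Filter.Eventually.of_forall e2), integral_sub (hS true) (hS false),
    integral_sub (hN true) (hN false)]
  have e3 : ∀ b, ∫ ω : Om d, (sumCl (Oc ω) (0 : V d) (fun x => G b (Oc ω) x)).toReal ∂(Pr d) =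
      ∫ ω : Om d, ((Nc (Oc ω) (0 : V d) : ℝ≥0∞) * G b (Oc ω) 0).toReal ∂(Pr d) := by
    intro b
    have hm2 : Measurable (fun ω : Om d => (Nc (Oc ω) (0 : V d) : ℝ≥0∞) * G b (Oc ω) 0) :=
      hNm.mul (hGm b 0)
    rw [integral_toReal (measurable_sumCl (G b) (hGm b)).aemeasurable
      (ae_lt_top (measurable_sumCl (G b) (hGm b)) (by rw [hG b]; exact hfin b)),
      integral_toReal hm2.aemeasurable (ae_lt_top hm2 (hfin b)), hG b]
  rw [e3 true, e3 false]

end Pool.Agent.PB.S8
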