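import Pool.Agent.PB.S8.ReInt
import Pool.Agent.PB.S8.Cloc
import Pool.Agent.PB.S8.WSq

/-!
# PB S8-Sq (0.7 h, uses ReInt, Cloc, WSq, Out6.loc, Out6.isLSF): 8.1

γ = gbr R g, N = Nc, Y = Yf R g. D = s^2 (Y - γN)^2 e^{-sN} = Σ_{x ∈ C(0)} (g(Lb0 R O x) - γ) s^2 (Y - γN) e^{-sN}; by reroot_real with
F O x = (g(Lb0 R O x) - γ) s^2 (Yf O x - γ Nc O x) e^{-s Nc O x} (constant cluster functions: Nc_congr, Yf_congr)
∫ D = ∫ H(Oc) W_s, H O = g (Lb0 R O 0) - γ, W_s = Wf R g w, w s N Y = s^2 N (Y - γN) e^{-sN} (isW_sq, Out6.isLSF).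
N F(Oc,0) is bounded (|.| <= c' (sN)^2 e^{-sN}) so integrable. cloc H = gbr R g - γ = 0 (cloc_sub_const), so Out6.loc gives the claim.
g may be replaced by a g bounded by c on finite sets containing 0 only; hypothesis as in Out6.isLSF.
-/

set_option autoImplicit false
open MeasureTheory Filter Topology
open scoped ENNReal BigOperators

namespace Pool.Agent.PB.S8

open Pool.Agent.PB

variable {d : ℕ}

/-- the summand -/
private noncomputable def Fsq (R : ℕ) (g : Set (V d) → ℝ) (γ s : ℝ) (O : Set (Sym2 (V d)))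
    (x : V d) : ℝ :=
  (g (Lb0 R O x) - γ) * (s ^ 2 * (Yf R g O x - γ * (Nc O x : ℝ)) *
    Real.exp (-(s * (Nc O x : ℝ))))

private theorem sumCl_Fsq (R : ℕ) (g : Set (V d) → ℝ) (γ s : ℝ) (O : Set (Sym2 (V d))) :
    sumCl O (0 : V d) (fun x => Fsq R g γ s O x) =
      s ^ 2 * (Yf R g O 0 - γ * (Nc O (0 : V d) : ℝ)) ^ 2 *
        Real.exp (-(s * (Nc O (0 : V d) : ℝ))) := by
  classical
  by_cases hf : (Cl O (0 : V d)).Finite
  · have h1 : sumCl O (0 : V d) (fun x => Fsq R g γ s O x) =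
        ∑ x ∈ hf.toFinset, Fsq R g γ s O x := by
      unfold sumCl
      rw [dif_pos hf]
    have h2 : ∀ x ∈ hf.toFinset, Fsq R g γ s O x = (g (Lb0 R O x) - γ) *
        (s ^ 2 * (Yf R g O 0 - γ * (Nc O (0 : V d) : ℝ)) *
          Real.exp (-(s * (Nc O (0 : V d) : ℝ)))) := by
      intro x hx
      have hx' : x ∈ Cl O (0 : V d) := by simpa using hx
      unfold Fsq
      rw [Yf_congr R g hx', Nc_congr hx']
    have h3 : ∑ x ∈ hf.toFinset, (g (Lb0 R O x) - γ) =
        Yf R g O 0 - γ * (Nc O (0 : V d) : ℝ) := by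
      rw [← Yf_sub_const]
      unfold Yf
      rw [dif_pos hf]
    rw [h1, Finset.sum_congr rfl h2, ← Finset.sum_mul, h3]
    ring
  · have h1 : sumCl O (0 : V d) (fun x => Fsq R g γ s O x) = 0 := by
      unfold sumCl
      rw [dif_neg hf]
    have h2 : Yf R g O (0 : V d) - γ * (Nc O (0 : V d) : ℝ) = 0 := by
      rw [← Yf_sub_const]
      unfold Yf
      rw [dif_neg hf]
    rw [h1, h2]
    ring

theorem sq_small (h5 : Out5 d) (h6 : Out6 d) (R : ℕ) (g : Set (V d) → ℝ) (c : ℝ)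
    (hg : ∀ L : Set (V d), L.Finite → (0 : V d) ∈ L → |g L| ≤ c) :
    Tendsto (fun s : ℝ => (∫ ω : Om d, s ^ 2 *
        (Yf R g (Oc ω) 0 - gbr R g * (Nc (Oc ω) (0 : V d) : ℝ)) ^ 2 *
          Real.exp (-(s * (Nc (Oc ω) (0 : V d) : ℝ))) ∂(Pr d)) / Real.sqrt s) (𝓝[>] 0) (𝓝 0) := by
  classical
  set γ := gbr R g with hγ
  have hc0 : 0 ≤ c := le_trans (abs_nonneg _) (hg {0} (Set.finite_singleton _) rfl)
  obtain ⟨c1, hW⟩ := isW_sq γ c hc0
  obtain ⟨c', hL⟩ := h6.isLSF R g _ c c1 hW hg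
  set w : ℝ → ℕ → ℝ → ℝ := fun s N Y => s ^ 2 * N * (Y - γ * N) * Real.exp (-(s * N)) with hw
  have hloc : LocalF (ins (bx R (0 : V d))) (fun O => g (Lb0 R O (0 : V d)) - γ) :=
    Lb0_local R (fun L => g L - γ)
  have hloc' : LocalF (ins (bx R (0 : V d))) (fun O => g (Lb0 R O (0 : V d))) := Lb0_local R g
  have hA : (D0 : Del (V d)).Finite := ⟨Set.finite_empty, Set.finite_empty⟩
  have hy : (0 : V d) ∉ (D0 : Del (V d)).S := Set.notMem_empty _
  have h1 := h6.loc _ _ hloc (Wf R g w) c' hL D0 0 hA hy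
  have h2 : cloc (fun O => g (Lb0 R O (0 : V d)) - γ) (D0 : Del (V d)) 0 = 0 := by
    rw [cloc_sub_const h5 h6 hloc' γ]
    rw [hγ]
    unfold gbr
    exact sub_self _
  rw [h2] at h1
  simp only [zero_mul, sub_zero] at h1
  refine h1.congr' ?_
  have hmem : Set.Ioc (0 : ℝ) 1 ∈ 𝓝[>] (0 : ℝ) := Ioc_mem_nhdsGT one_pos
  filter_upwards [hmem] with s hs
  congr 1
  have hmN := measurable_Nc (d := d) 0
  have hmY := measurable_Yf (d := d) R g 0
  have hmL := measurable_Lb0 (d := d) R g 0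
  have key : ∀ ω : Om d, (Nc (Oc ω) (0 : V d) : ℝ) * Fsq R g γ s (Oc ω) 0 =
      (g (Lb0 R (Oc ω) (0 : V d)) - γ) * WA (Wf R g w) s D0 (Oc ω) 0 := by
    intro ω
    rw [WA_D0]
    unfold Fsq Wf
    simp only [hw]
    ring
  have hint : Integrable (fun ω : Om d => (Nc (Oc ω) (0 : V d) : ℝ) * Fsq R g γ s (Oc ω) 0)
      (Pr d) := by
    refine Integrable.of_bound (C := (c + |γ|) * c1) ?_ ?_
    · apply Measurable.aestronglyMeasurable
      exact hmN.mul ((hmL.sub_const γ).mul (((hmY.sub (hmN.const_mul γ)).const_mul (s ^ 2)).mul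
        (Real.measurable_exp.comp (hmN.const_mul s).neg)))
    · refine Eventually.of_forall fun ω => ?_
      rw [key, Real.norm_eq_abs, abs_mul, WA_D0]
      have h3 : |g (Lb0 R (Oc ω) (0 : V d)) - γ| ≤ c + |γ| :=
        (abs_sub _ _).trans (add_le_add (hg _ (Lb0_finite _ _ _) (zero_mem_Lb0 _ _ _)) le_rfl)
      have h4 : |Wf R g w s (Oc ω) 0| ≤ c1 := by
        unfold Wf
        refine (hW.bd s hs.1 hs.2 _ _ (Yf_bound hg _ _)).trans ?_
        have : c1 * min 1 (s * (Nc (Oc ω) (0 : V d) : ℝ)) ≤ c1 * 1 :=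
          mul_le_mul_of_nonneg_left (min_le_left _ _) (le_trans zero_le_one hW.one_le)
        simpa using this
      exact mul_le_mul h3 h4 (abs_nonneg _) (by positivity)
  have h3 := reroot_real (d := d) (Fsq R g γ s) (by
    intro O x z
    unfold Fsq
    rw [Lb0_shift, Yf_shift, Nc_shift]) (by
    intro x
    have a1 := measurable_Nc (d := d) x
    have a2 := measurable_Yf (d := d) R g x
    have a3 := measurable_Lb0 (d := d) R g x
    exact (a3.sub_const γ).mul (((a2.sub (a1.const_mul γ)).const_mul (s ^ 2)).mul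
      (Real.measurable_exp.comp (a1.const_mul s).neg))) hint
  simp only [sumCl_Fsq] at h3
  rw [h3]
  unfold EWH
  refine integral_congr_ae (Eventually.of_forall fun ω => ?_)
  exact (key ω).symm

end Pool.Agent.PB.S8
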